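import Mathlib

/-! # Slopes in general position for the arithmetic Kakeya conjecture -/

set_option autoImplicit false

namespace Pool.Agent.R470.AK

open Finset

/-- `{x + c y : x ∈ X, y ∈ Y}` -/
def comb (c : ℚ) (X Y : Finset ℚ) : Finset ℚ := image₂ (fun x y => x + c * y) X Y

/-- the value of a polynomial with `n` coefficients -/
def val (n : ℕ) (ν : ℚ) (z : Fin n → ℚ) : ℚ := ∑ i : Fin n, ν ^ (i : ℕ) * z i

/-- the values at `ν` of the polynomials with `n` coefficients in `Z` -/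
def P (n : ℕ) (ν : ℚ) (Z : Finset ℚ) : Finset ℚ :=
  (Fintype.piFinset fun _ : Fin n => Z).image (val n ν)

/-- polynomials with coefficients in `Z` are determined by their values at `ν` -/
def Good (n : ℕ) (ν : ℚ) (Z : Finset ℚ) : Prop :=
  Set.InjOn (val n ν) (Fintype.piFinset fun _ : Fin n => Z : Finset (Fin n → ℚ))

lemma card_P_le (n : ℕ) (ν : ℚ) (Z : Finset ℚ) : (P n ν Z).card ≤ Z.card ^ n := by
  refine card_image_le.trans ?_
  simp [Fintype.card_piFinset]

lemma card_P_eq {n : ℕ} {ν : ℚ} {Z : Finset ℚ} (h : Good n ν Z) : (P n ν Z).card = Z.card ^ n := by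
  rw [P, card_image_of_injOn h]
  simp [Fintype.card_piFinset]

lemma mem_comb {c : ℚ} {X Y : Finset ℚ} {w : ℚ} :
    w ∈ comb c X Y ↔ ∃ x ∈ X, ∃ y ∈ Y, x + c * y = w := by
  simp [comb, mem_image₂]

lemma mem_P {n : ℕ} {ν : ℚ} {Z : Finset ℚ} {w : ℚ} :
    w ∈ P n ν Z ↔ ∃ z : Fin n → ℚ, (∀ i, z i ∈ Z) ∧ val n ν z = w := by
  simp [P, Fintype.mem_piFinset]

lemma comb_P (n : ℕ) (ν c : ℚ) (X Y : Finset ℚ) :
    comb c (P n ν X) (P n ν Y) = P n ν (comb c X Y) := by
  ext w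
  rw [mem_comb, mem_P]
  constructor
  · rintro ⟨x, hx, y, hy, rfl⟩
    obtain ⟨a, ha, rfl⟩ := mem_P.1 hx
    obtain ⟨b, hb, rfl⟩ := mem_P.1 hy
    refine ⟨fun i => a i + c * b i, fun i => mem_comb.2 ⟨_, ha i, _, hb i, rfl⟩, ?_⟩
    simp only [val, mul_add, sum_add_distrib, mul_sum]
    congr 1
    exact sum_congr rfl fun i _ => by ring
  · rintro ⟨z, hz, rfl⟩
    choose a ha b hb hab using fun i => mem_comb.1 (hz i)
    refine ⟨val n ν a, mem_P.2 ⟨a, ha, rfl⟩, val n ν b, mem_P.2 ⟨b, hb, rfl⟩, ?_⟩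
    simp only [val, mul_sum, ← hab, mul_add, sum_add_distrib]
    congr 1
    exact sum_congr rfl fun i _ => by ring

lemma zero_mem_P (n : ℕ) (ν : ℚ) {Z : Finset ℚ} (h : (0 : ℚ) ∈ Z) : (0 : ℚ) ∈ P n ν Z :=
  mem_P.2 ⟨fun _ => 0, fun _ => h, by simp [val]⟩

lemma comb_self_P (n : ℕ) (ν : ℚ) {X : Finset ℚ} (h : (0 : ℚ) ∈ X) :
    comb ν (P n ν X) (P n ν X) ⊆ P (n + 1) ν (comb 1 X X) := by
  intro w hw
  obtain ⟨x, hx, y, hy, rfl⟩ := mem_comb.1 hw
  obtain ⟨a, ha, rfl⟩ := mem_P.1 hx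
  obtain ⟨b, hb, rfl⟩ := mem_P.1 hy
  refine mem_P.2 ⟨fun i => Fin.snoc (α := fun _ => ℚ) a 0 i + Fin.cons (α := fun _ => ℚ) 0 b i, ?_, ?_⟩
  · intro i
    refine mem_comb.2 ⟨Fin.snoc (α := fun _ => ℚ) a 0 i, ?_, Fin.cons (α := fun _ => ℚ) 0 b i, ?_,
      by rw [one_mul]⟩
    · refine Fin.lastCases ?_ (fun j => ?_) i
      · rw [Fin.snoc_last]; exact h
      · rw [Fin.snoc_castSucc]; exact ha j
    · refine Fin.cases ?_ (fun j => ?_) i
      · rw [Fin.cons_zero]; exact h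
      · rw [Fin.cons_succ]; exact hb j
  · simp only [val, mul_add, sum_add_distrib]
    congr 1
    · rw [Fin.sum_univ_castSucc]
      simp
    · rw [Fin.sum_univ_succ]
      simp only [Fin.cons_zero, mul_zero, zero_add, Fin.cons_succ, Fin.val_succ, mul_sum]
      exact sum_congr rfl fun i _ => by ring

/-- the bad parameters form a finite set -/
lemma bad_finite (n : ℕ) (Z : Finset ℚ) : {ν : ℚ | ¬ Good n ν Z}.Finite := by
  classical
  set W := (Fintype.piFinset fun _ : Fin n => Z) with hW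
  let p : (Fin n → ℚ) × (Fin n → ℚ) → Polynomial ℚ := fun q =>
    ∑ i : Fin n, Polynomial.C (q.1 i - q.2 i) * Polynomial.X ^ (i : ℕ)
  have hfin : (⋃ q ∈ {q : (Fin n → ℚ) × (Fin n → ℚ) | q ∈ W ×ˢ W ∧ q.1 ≠ q.2},
      {ν : ℚ | (p q).IsRoot ν}).Finite := by
    refine Set.Finite.biUnion ((W ×ˢ W).finite_toSet.subset fun q hq => hq.1) ?_
    rintro q ⟨_, hq⟩
    refine Polynomial.finite_setOf_isRoot ?_
    intro h0
    apply hq
    funext i
    have h1 : (p q).coeff (i : ℕ) = q.1 i - q.2 i := by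
      simp only [p, Polynomial.finset_sum_coeff, Polynomial.coeff_C_mul, Polynomial.coeff_X_pow]
      rw [Finset.sum_eq_single i]
      · simp
      · intro j _ hj
        rw [if_neg, mul_zero]
        intro h
        exact hj (Fin.ext h.symm)
      · intro h
        exact absurd (mem_univ i) h
    rw [h0, Polynomial.coeff_zero] at h1
    linarith
  refine hfin.subset ?_
  intro ν hν
  simp only [Set.mem_setOf_eq, Good, Set.InjOn] at hν
  push Not at hν
  obtain ⟨z, hz, z', hz', he, hne⟩ := hν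
  refine Set.mem_biUnion (x := (z, z')) ⟨mem_product.2 ⟨mem_coe.1 hz, mem_coe.1 hz'⟩, hne⟩ ?_
  simp only [Set.mem_setOf_eq, Polynomial.IsRoot, p, Polynomial.eval_finset_sum,
    Polynomial.eval_mul, Polynomial.eval_C, Polynomial.eval_pow, Polynomial.eval_X]
  have : (∑ i : Fin n, (z i - z' i) * ν ^ (i : ℕ)) = val n ν z - val n ν z' := by
    simp only [val, ← sum_sub_distrib]
    exact sum_congr rfl fun i _ => by ring
  rw [this, he, sub_self]

/-- the digit sets -/
def X (n m : ℕ) (ν : ℕ → ℚ) : ℕ → Finset ℚ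
  | 0 => (range m).image (fun i : ℕ => (i : ℚ))
  | k + 1 => P n (ν k) (X n m ν k)

lemma zero_mem_X {n m : ℕ} (hm : 0 < m) (ν : ℕ → ℚ) (k : ℕ) : (0 : ℚ) ∈ X n m ν k := by
  induction k with
  | zero => exact mem_image.2 ⟨0, mem_range.2 hm, by simp⟩
  | succ k ih => exact zero_mem_P n (ν k) ih

lemma card_X_le (n m : ℕ) (ν : ℕ → ℚ) (k : ℕ) : (X n m ν k).card ≤ m ^ n ^ k := by
  induction k with
  | zero =>
    simp only [X, pow_zero, pow_one]
    exact card_image_le.trans (by simp)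
  | succ k ih =>
    refine (card_P_le n (ν k) _).trans ?_
    rw [pow_succ n k, pow_mul]
    exact Nat.pow_le_pow_left ih n

lemma card_sum_le (n m : ℕ) (ν : ℕ → ℚ) (k : ℕ) :
    (comb 1 (X n m ν k) (X n m ν k)).card ≤ (2 * m) ^ n ^ k := by
  induction k with
  | zero =>
    have h : comb 1 (X n m ν 0) (X n m ν 0) ⊆ (range (2 * m)).image (fun i : ℕ => (i : ℚ)) := by
      intro w hw
      obtain ⟨x, hx, y, hy, rfl⟩ := mem_comb.1 hw
      obtain ⟨i, hi, rfl⟩ := mem_image.1 hx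
      obtain ⟨j, hj, rfl⟩ := mem_image.1 hy
      rw [mem_range] at hi hj
      exact mem_image.2 ⟨i + j, mem_range.2 (by omega), by push_cast; ring⟩
    refine (card_le_card h).trans (card_image_le.trans ?_)
    simp
  | succ k ih =>
    simp only [X]
    rw [comb_P]
    refine (card_P_le n (ν k) _).trans ?_
    rw [pow_succ n k, pow_mul]
    exact Nat.pow_le_pow_left ih n

lemma card_comb_le {n m : ℕ} (hm : 0 < m) (ν : ℕ → ℚ) (j k : ℕ) (hjk : j < k) :
    (comb (ν j) (X n m ν k) (X n m ν k)).card ^ n ≤ ((2 * m) ^ n ^ k) ^ (n + 1) := by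
  induction k, hjk using Nat.le_induction with
  | base =>
    have h1 : (comb (ν j) (X n m ν (j + 1)) (X n m ν (j + 1))).card ≤
        ((2 * m) ^ n ^ j) ^ (n + 1) := by
      simp only [X]
      refine (card_le_card (comb_self_P n (ν j) (zero_mem_X hm ν j))).trans ?_
      refine (card_P_le (n + 1) (ν j) _).trans ?_
      exact Nat.pow_le_pow_left (card_sum_le n m ν j) _
    refine (Nat.pow_le_pow_left h1 n).trans (le_of_eq ?_)
    show (((2 * m) ^ n ^ j) ^ (n + 1)) ^ n = ((2 * m) ^ n ^ (j + 1)) ^ (n + 1)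
    rw [← pow_mul, ← pow_mul, ← pow_mul]
    congr 1
    ring
  | succ k hk ih =>
    have h1 : (comb (ν j) (X n m ν (k + 1)) (X n m ν (k + 1))).card ≤
        (comb (ν j) (X n m ν k) (X n m ν k)).card ^ n := by
      simp only [X]
      rw [comb_P]
      exact card_P_le n (ν k) _
    refine (Nat.pow_le_pow_left (h1.trans ih) n).trans (le_of_eq ?_)
    rw [← pow_mul, ← pow_mul, ← pow_mul]
    congr 1
    ring

lemma card_target {n m : ℕ} (t : ℚ) (ν : ℕ → ℚ) (k : ℕ)
    (h0 : (comb (-t) (X n m ν 0) (X n m ν 0)).card = m ^ 2)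
    (hg : ∀ i < k, Good n (ν i) (comb (-t) (X n m ν i) (X n m ν i))) :
    (comb (-t) (X n m ν k) (X n m ν k)).card = (m ^ n ^ k) ^ 2 := by
  induction k with
  | zero => simpa using h0
  | succ k ih =>
    simp only [X]
    rw [comb_P, card_P_eq (hg k (Nat.lt_succ_self k)), ih fun i hi => hg i (by omega)]
    rw [← pow_mul, ← pow_mul, ← pow_mul]
    congr 1
    ring

end Pool.Agent.R470.AK
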