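import Mathlib
import Pool.Agent.R470.AK.Lac

/-! # Lacunary sets of slopes for the arithmetic Kakeya conjecture -/

set_option autoImplicit false

namespace Pool.Agent.R470.AK

open Finset

/-- the projection `π_r(A) = {x + r y : (x, y) ∈ A}` -/
def proj (r : ℚ) (A : Finset (ℤ × ℤ)) : Finset ℚ :=
  A.image (fun p : ℤ × ℤ => (p.1 : ℚ) + r * (p.2 : ℚ))

/-- the projection `π_∞(A) = {y : (x, y) ∈ A}` -/
def projInf (A : Finset (ℤ × ℤ)) : Finset ℚ := A.image (fun p : ℤ × ℤ => (p.2 : ℚ))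

/-- the largest size of a projection of `A` with slope `∞` or in `S` -/
def big (S : Finset ℚ) (A : Finset (ℤ × ℤ)) : ℕ :=
  max (projInf A).card (S.sup fun r => (proj r A).card)

/-- clearing denominators -/
lemma int_points (B : Finset (ℚ × ℚ)) : ∃ A : Finset (ℤ × ℤ),
    (B.Nonempty → A.Nonempty) ∧
    (∀ r : ℚ, (proj r A).card = (B.image fun p => p.1 + r * p.2).card) ∧
    (projInf A).card = (B.image fun p => p.2).card := by
  classical
  set M : ℕ := ∏ p ∈ B, (p.1.den * p.2.den) with hM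
  have hM0 : (M : ℚ) ≠ 0 := by
    rw [Nat.cast_ne_zero, hM, prod_ne_zero_iff]
    intro p _
    exact mul_ne_zero p.1.den_nz p.2.den_nz
  have hdvd : ∀ p ∈ B, p.1.den * p.2.den ∣ M := fun p hp => dvd_prod_of_mem _ hp
  have h1 : ∀ q : ℚ, q.den ∣ M → ((⌊(M : ℚ) * q⌋ : ℤ) : ℚ) = M * q := by
    rintro q ⟨c, hc⟩
    have h2 : (M : ℚ) * q = ((c * q.num : ℤ) : ℚ) := by
      rw [hc]
      have h3 : (q.den : ℚ) * q = q.num := by
        rw [mul_comm]
        exact Rat.mul_den_eq_num q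
      push_cast
      calc (q.den : ℚ) * c * q = c * (q.den * q) := by ring
        _ = c * q.num := by rw [h3]
    rw [h2, Int.floor_intCast]
  set f : ℚ × ℚ → ℤ × ℤ := fun p => (⌊(M : ℚ) * p.1⌋, ⌊(M : ℚ) * p.2⌋) with hf
  have e1 : ∀ p ∈ B, (((f p).1 : ℤ) : ℚ) = M * p.1 := fun p hp =>
    h1 p.1 ((Dvd.intro _ rfl).trans (hdvd p hp))
  have e2 : ∀ p ∈ B, (((f p).2 : ℤ) : ℚ) = M * p.2 := fun p hp =>
    h1 p.2 ((Dvd.intro_left _ rfl).trans (hdvd p hp))
  have hinj : Function.Injective fun x : ℚ => (M : ℚ) * x := fun x y h => mul_left_cancel₀ hM0 h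
  refine ⟨B.image f, fun h => h.image f, ?_, ?_⟩
  · intro r
    have : proj r (B.image f) = (B.image fun p => p.1 + r * p.2).image fun x => (M : ℚ) * x := by
      unfold proj
      rw [image_image, image_image]
      refine image_congr fun p hp => ?_
      simp only [Function.comp]
      rw [e1 p hp, e2 p hp]
      ring
    rw [this, card_image_of_injective _ hinj]
  · have : projInf (B.image f) = (B.image fun p => p.2).image fun x => (M : ℚ) * x := by
      unfold projInf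
      rw [image_image, image_image]
      refine image_congr fun p hp => ?_
      simp only [Function.comp]
      rw [e2 p hp]
    rw [this, card_image_of_injective _ hinj]

/-- the digit sets give points with few projections and many differences -/
lemma assemble {n m : ℕ} (hm : 0 < m) (t : ℚ) (ν : ℕ → ℚ)
    (h0 : (comb (-t) (X n m ν 0) (X n m ν 0)).card = m ^ 2)
    (hg : ∀ i, Good n (ν i) (comb (-t) (X n m ν i) (X n m ν i))) (k : ℕ) :
    ∃ A : Finset (ℤ × ℤ), A.Nonempty ∧ (proj (-1) A).card = (m ^ n ^ k) ^ 2 ∧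
      ∀ S : Finset ℚ, (∀ r ∈ S, r + 1 = t ∨ ∃ j < k, r + 1 = t + ν j) →
        (big S A) ^ n ≤ ((2 * m) ^ n ^ k) ^ (n + 1) := by
  classical
  set D := X n m ν k with hD
  set B : Finset (ℚ × ℚ) := (D ×ˢ D).image fun p => (p.1 + (1 - t) * p.2, p.2) with hB
  obtain ⟨A, hA0, hA1, hA2⟩ := int_points B
  have hDne : D.Nonempty := ⟨0, zero_mem_X hm ν k⟩
  have hBr : ∀ r : ℚ, (B.image fun p => p.1 + r * p.2) = comb (r + 1 - t) D D := by
    intro r
    rw [hB, image_image]
    ext w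
    rw [mem_comb, mem_image]
    constructor
    · rintro ⟨p, hp, rfl⟩
      rw [mem_product] at hp
      exact ⟨p.1, hp.1, p.2, hp.2, by simp only [Function.comp]; ring⟩
    · rintro ⟨x, hx, y, hy, rfl⟩
      exact ⟨(x, y), mem_product.2 ⟨hx, hy⟩, by simp only [Function.comp]; ring⟩
  have hsmall : D.card ^ n ≤ ((2 * m) ^ n ^ k) ^ (n + 1) := by
    have h1 : D.card ≤ (2 * m) ^ n ^ k :=
      (card_X_le n m ν k).trans (Nat.pow_le_pow_left (by omega) _)
    refine (Nat.pow_le_pow_left h1 n).trans ?_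
    exact Nat.pow_le_pow_right (Nat.pos_of_ne_zero (by positivity)) (Nat.le_succ n)
  refine ⟨A, hA0 ((hDne.product hDne).image _), ?_, ?_⟩
  · rw [hA1, hBr]
    have : (-1 : ℚ) + 1 - t = -t := by ring
    rw [this]
    exact card_target t ν k h0 fun i _ => hg i
  · intro S hS
    have hinf : (projInf A).card ^ n ≤ ((2 * m) ^ n ^ k) ^ (n + 1) := by
      rw [hA2]
      refine (Nat.pow_le_pow_left (card_le_card ?_) n).trans hsmall
      intro w hw
      rw [mem_image] at hw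
      obtain ⟨p, hp, rfl⟩ := hw
      rw [hB, mem_image] at hp
      obtain ⟨q, hq, rfl⟩ := hp
      exact (mem_product.1 hq).2
    have hr : ∀ r ∈ S, (proj r A).card ^ n ≤ ((2 * m) ^ n ^ k) ^ (n + 1) := by
      intro r hr
      rw [hA1, hBr]
      rcases hS r hr with h | ⟨j, hj, h⟩
      · refine (Nat.pow_le_pow_left (card_le_card ?_) n).trans hsmall
        intro w hw
        obtain ⟨x, hx, y, _, rfl⟩ := mem_comb.1 hw
        have : r + 1 - t = 0 := by linarith
        rw [this, zero_mul, add_zero]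
        exact hx
      · have : r + 1 - t = ν j := by linarith
        rw [this]
        exact card_comb_le hm ν j k hj
    unfold big
    rcases le_total (projInf A).card (S.sup fun r => (proj r A).card) with h | h
    · rw [max_eq_right h]
      rcases S.eq_empty_or_nonempty with hS0 | hS0
      · subst hS0
        rw [sup_empty] at h ⊢
        exact (Nat.pow_le_pow_left (Nat.zero_le _) n).trans hinf
      · obtain ⟨r, hrS, hre⟩ := exists_mem_eq_sup S hS0 fun r => (proj r A).card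
        rw [hre]
        exact hr r hrS
    · rw [max_eq_left h]
      exact hinf

/-- the numbers -/
lemma numeric (n : ℕ) (hn : 2 ≤ n) (κ : ℝ) (hκ : κ < 2 * n / (n + 1)) : ∃ m : ℕ, 2 ≤ m ∧
    ∀ C : ℝ, ∃ k₀ : ℕ, ∀ k ≥ k₀, ∀ B : ℕ, 1 ≤ B → B ^ n ≤ ((2 * m) ^ n ^ k) ^ (n + 1) →
      C * (B : ℝ) ^ κ < (((m ^ n ^ k) ^ 2 : ℕ) : ℝ) := by
  have hnR : (0 : ℝ) < n := by exact_mod_cast (by omega : 0 < n)
  have hl2 : 0 < Real.log 2 := Real.log_pos (by norm_num)
  -- `ρ < 2`
  set κ' : ℝ := max κ 0 with hκ'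
  have hκ'0 : 0 ≤ κ' := le_max_right _ _
  have hκ'1 : κ' < 2 * n / (n + 1) := max_lt hκ (by positivity)
  set ρ : ℝ := (n + 1) / n * κ' with hρ
  have hρ0 : 0 ≤ ρ := by positivity
  have hρ2 : ρ < 2 := by
    rw [lt_div_iff₀ (by positivity)] at hκ'1
    rw [hρ, div_mul_eq_mul_div, div_lt_iff₀ hnR]
    linarith
  set η : ℝ := (2 - ρ) / 2 with hη
  have hη0 : 0 < η := by rw [hη]; linarith
  obtain ⟨m, hm⟩ := exists_nat_ge (max (Real.exp (ρ * Real.log 2 / η)) 2)
  have hm8 : Real.exp (ρ * Real.log 2 / η) ≤ m := (le_max_left _ _).trans hm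
  have hm2 : 2 ≤ m := by exact_mod_cast (le_max_right _ _).trans hm
  refine ⟨m, hm2, fun C => ?_⟩
  have hmR : (1 : ℝ) < m := by exact_mod_cast (by omega : 1 < m)
  have hm0 : (0 : ℝ) < m := by linarith
  have hlm : ρ * Real.log 2 / η ≤ Real.log m := by
    rw [Real.le_log_iff_exp_le hm0]
    exact hm8
  have hlm0 : 0 < Real.log m := Real.log_pos hmR
  have hlm1 : ρ * Real.log 2 ≤ η * Real.log m := by
    rw [div_le_iff₀ hη0] at hlm
    linarith
  -- the main estimate
  have key : ∀ k B : ℕ, 1 ≤ B → B ^ n ≤ ((2 * m) ^ n ^ k) ^ (n + 1) →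
      (B : ℝ) ^ κ ≤ (m : ℝ) ^ ((2 - η) * ((n ^ k : ℕ) : ℝ)) := by
    intro k B hB0 hB
    have hBR : (1 : ℝ) ≤ B := by exact_mod_cast hB0
    have hBR0 : (0 : ℝ) < B := by linarith
    refine (Real.rpow_le_rpow_of_exponent_le hBR (le_max_left κ 0)).trans ?_
    rw [← hκ', ← Real.log_le_log_iff (Real.rpow_pos_of_pos hBR0 _) (Real.rpow_pos_of_pos hm0 _),
      Real.log_rpow hBR0, Real.log_rpow hm0]
    have h2 : (n : ℝ) * Real.log B ≤ ((n : ℝ) + 1) * (((n ^ k : ℕ) : ℝ) * Real.log (2 * m)) := by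
      have h3 : (B : ℝ) ^ n ≤ (((2 * m : ℝ)) ^ (n ^ k)) ^ (n + 1) := by exact_mod_cast hB
      have h4 := Real.log_le_log (by positivity) h3
      rw [Real.log_pow, Real.log_pow, Real.log_pow] at h4
      push_cast at h4 ⊢
      exact h4
    have h5 : Real.log (2 * m) = Real.log 2 + Real.log m :=
      Real.log_mul (by norm_num) (by positivity)
    set N : ℝ := ((n ^ k : ℕ) : ℝ) with hN
    have hN0 : 0 ≤ N := Nat.cast_nonneg _
    have h7 : Real.log B ≤ ((n : ℝ) + 1) / n * (N * Real.log (2 * m)) := by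
      rw [div_mul_eq_mul_div, le_div_iff₀ hnR]
      linarith
    have h8 : κ' * Real.log B ≤ κ' * (((n : ℝ) + 1) / n * (N * Real.log (2 * m))) :=
      mul_le_mul_of_nonneg_left h7 hκ'0
    refine h8.trans ?_
    calc κ' * (((n : ℝ) + 1) / n * (N * Real.log (2 * m)))
        = N * (ρ * Real.log 2 + ρ * Real.log m) := by rw [h5, hρ]; ring
      _ ≤ N * (η * Real.log m + ρ * Real.log m) := by gcongr
      _ = (2 - η) * N * Real.log m := by rw [hη]; ring
  -- large `k`
  have hgr : Filter.Tendsto (fun k : ℕ => (m : ℝ) ^ (η * ((n ^ k : ℕ) : ℝ)))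
      Filter.atTop Filter.atTop := by
    have e : (fun k : ℕ => (m : ℝ) ^ (η * ((n ^ k : ℕ) : ℝ))) =
        (fun x : ℝ => Real.exp x) ∘ (fun k : ℕ => Real.log m * (η * ((n ^ k : ℕ) : ℝ))) := by
      funext k
      simp only [Function.comp]
      rw [Real.rpow_def_of_pos hm0]
    rw [e]
    refine Real.tendsto_exp_atTop.comp ?_
    refine Filter.Tendsto.const_mul_atTop hlm0 (Filter.Tendsto.const_mul_atTop hη0 ?_)
    exact tendsto_natCast_atTop_atTop.comp (tendsto_pow_atTop_atTop_of_one_lt (r := n) (by omega))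
  obtain ⟨k₀, hk₀⟩ := Filter.eventually_atTop.1 (hgr.eventually (Filter.eventually_gt_atTop C))
  refine ⟨k₀, fun k hk B hB0 hB => ?_⟩
  have h2 := hk₀ k hk
  have h3 := key k B hB0 hB
  have hB1 : (0 : ℝ) ≤ (B : ℝ) ^ κ := by positivity
  have hpos : 0 < (m : ℝ) ^ ((2 - η) * ((n ^ k : ℕ) : ℝ)) := Real.rpow_pos_of_pos hm0 _
  have h4 : (((m ^ n ^ k) ^ 2 : ℕ) : ℝ) = (m : ℝ) ^ (η * ((n ^ k : ℕ) : ℝ)) *
      (m : ℝ) ^ ((2 - η) * ((n ^ k : ℕ) : ℝ)) := by
    rw [← Real.rpow_add hm0]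
    have : η * ((n ^ k : ℕ) : ℝ) + (2 - η) * ((n ^ k : ℕ) : ℝ) =
        ((n ^ k * 2 : ℕ) : ℝ) := by push_cast; ring
    rw [this, Real.rpow_natCast]
    push_cast
    rw [pow_mul]
  rw [h4]
  rcases le_or_gt C 0 with hC | hC
  · refine lt_of_le_of_lt (mul_nonpos_of_nonpos_of_nonneg hC hB1) ?_
    exact mul_pos (Real.rpow_pos_of_pos hm0 _) hpos
  · calc C * (B : ℝ) ^ κ ≤ C * (m : ℝ) ^ ((2 - η) * ((n ^ k : ℕ) : ℝ)) :=
        mul_le_mul_of_nonneg_left h3 hC.le
      _ < _ := mul_lt_mul_of_pos_right h2 hpos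

end Pool.Agent.R470.AK
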