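import Mathlib
import Pool.Agent.R470.AK.Lac2

/-! # Lacunary sets of slopes for the arithmetic Kakeya conjecture: the sequences -/

set_option autoImplicit false

namespace Pool.Agent.R470.AK

open Finset

/-- quotients of small integers -/
noncomputable def bad0 (m : ℕ) : Finset ℚ :=
  (Icc (-(m : ℤ)) m ×ˢ Icc (-(m : ℤ)) m).image fun p => (p.1 : ℚ) / p.2

lemma base {n m : ℕ} {t : ℚ} (ν : ℕ → ℚ)
    (ht : ∀ a b : ℤ, |a| < m → |b| < m → b ≠ 0 → t ≠ a / b) :
    (comb (-t) (X n m ν 0) (X n m ν 0)).card = m ^ 2 := by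
  have hX : (X n m ν 0).card = m := by
    simp only [X]
    rw [card_image_of_injective _ Nat.cast_injective, card_range]
  rw [comb, card_image₂_iff.2, hX, sq]
  rintro ⟨x, y⟩ h1 ⟨x', y'⟩ h2 h
  simp only [Set.mem_prod, mem_coe] at h1 h2
  obtain ⟨hx, hy⟩ := h1
  obtain ⟨hx', hy'⟩ := h2
  obtain ⟨a, ha, rfl⟩ := mem_image.1 hx
  obtain ⟨b, hb, rfl⟩ := mem_image.1 hy
  obtain ⟨a', ha', rfl⟩ := mem_image.1 hx'
  obtain ⟨b', hb', rfl⟩ := mem_image.1 hy'
  rw [mem_range] at ha hb ha' hb'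
  simp only at h
  by_cases hbb : b = b'
  · subst hbb
    have : (a : ℚ) = a' := by linarith
    rw [this]
  · exfalso
    have h3 : ((b : ℤ) - b') ≠ 0 := by omega
    refine ht ((a : ℤ) - a') ((b : ℤ) - b') ?_ ?_ h3 ?_
    · rw [abs_lt]; omega
    · rw [abs_lt]; omega
    · have h4 : (((b : ℤ) - b' : ℤ) : ℚ) ≠ 0 := by exact_mod_cast h3
      rw [eq_div_iff h4]
      push_cast
      linarith

lemma base_of_not_mem {n m : ℕ} {t : ℚ} (ν : ℕ → ℚ) (ht : t ∉ bad0 m) :
    (comb (-t) (X n m ν 0) (X n m ν 0)).card = m ^ 2 := by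
  refine base ν fun a b ha hb _ h => ht ?_
  rw [abs_lt] at ha hb
  exact mem_image.2 ⟨(a, b), mem_product.2 ⟨mem_Icc.2 ⟨by omega, by omega⟩,
    mem_Icc.2 ⟨by omega, by omega⟩⟩, h.symm⟩

lemma good_mono {n : ℕ} {ν : ℚ} {Z Z' : Finset ℚ} (h : Good n ν Z') (hs : Z ⊆ Z') :
    Good n ν Z := by
  intro z hz z' hz' he
  refine h ?_ ?_ he
  · rw [mem_coe, Fintype.mem_piFinset] at hz ⊢
    exact fun i => hs (hz i)
  · rw [mem_coe, Fintype.mem_piFinset] at hz' ⊢
    exact fun i => hs (hz' i)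

/-- choice of the parameters in an infinite set -/
lemma exists_seq (n m : ℕ) (U : Set ℚ) (hU : U.Infinite) :
    ∃ (t : ℚ) (ν : ℕ → ℚ), t ∈ U ∧ (∀ j, t + ν j ∈ U) ∧ Function.Injective ν ∧
      (comb (-t) (X n m ν 0) (X n m ν 0)).card = m ^ 2 ∧
      ∀ i, Good n (ν i) (comb (-t) (X n m ν i) (X n m ν i)) := by
  classical
  obtain ⟨t, htU, ht⟩ := (hU.diff (bad0 m).finite_toSet).nonempty
  have hne : ∀ s : Finset ℚ × Finset ℚ, ∃ ν : ℚ, t + ν ∈ U ∧ ν ∉ s.2 ∧
      Good n ν (comb (-t) s.1 s.1) := by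
    intro s
    have h1 : {ν : ℚ | t + ν ∈ U}.Infinite := by
      have : {ν : ℚ | t + ν ∈ U} = (fun x => x - t) '' U := by
        ext x
        constructor
        · intro hx
          exact ⟨t + x, hx, by ring⟩
        · rintro ⟨y, hy, rfl⟩
          show t + (y - t) ∈ U
          rwa [add_sub_cancel]
      rw [this]
      exact hU.image fun x _ y _ h => by simpa using h
    obtain ⟨ν, h2, h3⟩ := (h1.diff (s.2.finite_toSet.union
      (bad_finite n (comb (-t) s.1 s.1)))).nonempty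
    rw [Set.mem_union, not_or] at h3
    refine ⟨ν, h2, fun h => h3.1 (mem_coe.2 h), ?_⟩
    by_contra h
    exact h3.2 h
  choose nx hx1 hx2 hx3 using hne
  let st : ℕ → Finset ℚ × Finset ℚ := fun k => Nat.rec ((range m).image (fun i : ℕ => (i : ℚ)), ∅)
    (fun _ s => (P n (nx s) s.1, insert (nx s) s.2)) k
  have st1 : ∀ k, st (k + 1) = (P n (nx (st k)) (st k).1, insert (nx (st k)) (st k).2) :=
    fun _ => rfl
  set ν : ℕ → ℚ := fun k => nx (st k) with hν
  have hX : ∀ k, (st k).1 = X n m ν k := by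
    intro k
    induction k with
    | zero => rfl
    | succ k ih =>
      rw [st1]
      show P n (nx (st k)) (st k).1 = P n (ν k) (X n m ν k)
      rw [ih]
  have hmem : ∀ j k, j < k → ν j ∈ (st k).2 := by
    intro j k hjk
    induction k, hjk using Nat.le_induction with
    | base => rw [st1]; exact mem_insert_self _ _
    | succ k _ ih => rw [st1]; exact mem_insert_of_mem ih
  refine ⟨t, ν, htU, fun j => hx1 (st j), ?_, base_of_not_mem ν fun h => ht (mem_coe.2 h), ?_⟩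
  · intro a b hab
    by_contra hne
    rcases lt_or_gt_of_ne hne with h | h
    · exact hx2 (st b) (by have := hmem a b h; rw [hab] at this; exact this)
    · exact hx2 (st a) (by have := hmem b a h; rw [← hab] at this; exact this)
  · intro i
    have := hx3 (st i)
    rw [hX i] at this
    exact this

lemma big_pos {S : Finset ℚ} {A : Finset (ℤ × ℤ)} (hA : A.Nonempty) : 1 ≤ big S A := by
  unfold big
  refine le_max_of_le_left ?_
  exact (hA.image _).card_pos

/-- every infinite set of slopes contains an infinite set of slopes of no use -/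
theorem hereditary (κ : ℝ) (hκ : κ < 2) (R : Set ℚ) (hR : R.Infinite) :
    ∃ T ⊆ R, T.Infinite ∧ ∀ S : Finset ℚ, (S : Set ℚ) ⊆ T → ∀ C : ℝ,
      ∃ A : Finset (ℤ × ℤ), C * (big S A : ℝ) ^ κ < (proj (-1) A).card := by
  classical
  obtain ⟨n, hn, hκn⟩ : ∃ n : ℕ, 2 ≤ n ∧ κ < 2 * n / (n + 1) := by
    obtain ⟨n, hn⟩ := exists_nat_gt (max (2 / (2 - κ)) 2)
    have h1 : 2 / (2 - κ) < n := (le_max_left _ _).trans_lt hn
    have h2 : (2 : ℝ) < n := (le_max_right _ _).trans_lt hn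
    refine ⟨n, by exact_mod_cast h2.le, ?_⟩
    rw [lt_div_iff₀ (by positivity)]
    rw [div_lt_iff₀ (by linarith)] at h1
    nlinarith
  obtain ⟨m, hm, hnum⟩ := numeric n hn κ hκn
  have hU : ((fun r : ℚ => r + 1) '' R).Infinite :=
    hR.image fun x _ y _ h => by simpa using h
  obtain ⟨t, ν, htU, hνU, hinj, h0, hg⟩ := exists_seq n m _ hU
  refine ⟨{r | r + 1 = t ∨ ∃ j, r + 1 = t + ν j}, ?_, ?_, ?_⟩
  · rintro r (h | ⟨j, h⟩)
    · obtain ⟨r', hr', he⟩ := htU
      have : r = r' := by simp only at he; linarith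
      rw [this]; exact hr'
    · obtain ⟨r', hr', he⟩ := hνU j
      have : r = r' := by simp only at he; linarith
      rw [this]; exact hr'
  · refine Set.Infinite.mono ?_ (Set.infinite_range_of_injective
      (f := fun j : ℕ => t + ν j - 1) ?_)
    · rintro _ ⟨j, rfl⟩
      exact Or.inr ⟨j, by ring⟩
    · intro a b h
      exact hinj (by simpa using h)
  · intro S hS C
    obtain ⟨k₀, hk₀⟩ := hnum C
    have hidx : ∀ r ∈ S, ∃ j, r + 1 = t ∨ r + 1 = t + ν j := by
      intro r hr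
      rcases hS (mem_coe.2 hr) with h | ⟨j, h⟩
      · exact ⟨0, Or.inl h⟩
      · exact ⟨j, Or.inr h⟩
    choose! idx hidx using hidx
    set k := max k₀ (S.sup idx + 1) with hk
    obtain ⟨A, hA0, hA1, hA2⟩ := assemble (by omega : 0 < m) t ν h0 hg k
    refine ⟨A, ?_⟩
    rw [hA1]
    refine hk₀ k (le_max_left _ _) _ (big_pos hA0) (hA2 S ?_)
    intro r hr
    rcases hidx r hr with h | h
    · exact Or.inl h
    · refine Or.inr ⟨idx r, ?_, h⟩
      have : idx r ≤ S.sup idx := le_sup hr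
      omega

/-! ### Integers -/

lemma int_zero {N : ℤ} (n : ℕ) : ∀ w : Fin n → ℤ, (∀ i, |w i| < N) →
    ∑ i : Fin n, N ^ (i : ℕ) * w i = 0 → ∀ i, w i = 0 := by
  induction n with
  | zero => intro w _ _ i; exact i.elim0
  | succ n ih =>
    intro w hw h
    have hN : 0 < N := lt_of_le_of_lt (abs_nonneg _) (hw 0)
    rw [Fin.sum_univ_succ] at h
    simp only [Fin.val_zero, pow_zero, one_mul, Fin.val_succ, pow_succ] at h
    have h1 : ∑ i : Fin n, N ^ (i : ℕ) * N * w i.succ =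
        N * ∑ i : Fin n, N ^ (i : ℕ) * w i.succ := by
      rw [mul_sum]
      exact sum_congr rfl fun i _ => by ring
    rw [h1] at h
    have h2 : N ∣ w 0 := ⟨-∑ i : Fin n, N ^ (i : ℕ) * w i.succ, by linarith⟩
    have h3 : w 0 = 0 := Int.eq_zero_of_abs_lt_dvd h2 (hw 0)
    rw [h3, zero_add] at h
    have h4 : ∑ i : Fin n, N ^ (i : ℕ) * w i.succ = 0 := by
      rcases mul_eq_zero.1 h with h | h
      · omega
      · exact h
    have h5 := ih (fun i => w i.succ) (fun i => hw i.succ) h4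
    intro i
    refine Fin.cases h3 (fun j => h5 j) i

/-- all elements are integers of absolute value at most `B` -/
def IntB (B : ℤ) (Z : Finset ℚ) : Prop := ∀ z ∈ Z, ∃ a : ℤ, z = a ∧ |a| ≤ B

lemma good_of_intB {n : ℕ} {B N : ℤ} {Z : Finset ℚ} (hZ : IntB B Z) (hN : 2 * B < N) :
    Good n (N : ℚ) Z := by
  intro z hz z' hz' he
  rw [mem_coe, Fintype.mem_piFinset] at hz hz'
  choose a ha ha' using fun i => hZ _ (hz i)
  choose b hb hb' using fun i => hZ _ (hz' i)
  have h1 : ∑ i : Fin n, N ^ (i : ℕ) * (a i - b i) = 0 := by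
    have h2 : ((∑ i : Fin n, N ^ (i : ℕ) * (a i - b i) : ℤ) : ℚ) = val n N z - val n N z' := by
      simp only [val, ← sum_sub_distrib]
      push_cast
      exact sum_congr rfl fun i _ => by rw [ha i, hb i]; ring
    rw [he, sub_self] at h2
    exact_mod_cast h2
  have h3 := int_zero n (fun i => a i - b i) (fun i => by
    have := abs_sub (a i) (b i)
    have h4 := ha' i
    have h5 := hb' i
    linarith) h1
  funext i
  rw [ha i, hb i]
  have h7 : a i - b i = 0 := h3 i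
  have h6 : a i = b i := by omega
  rw [h6]

lemma intB_P {n : ℕ} {B N : ℤ} {Z : Finset ℚ} (hZ : IntB B Z) (hN : 1 ≤ N) :
    IntB (n * N ^ (n - 1) * B) (P n (N : ℚ) Z) := by
  intro w hw
  obtain ⟨z, hz, rfl⟩ := mem_P.1 hw
  choose a ha ha' using fun i => hZ _ (hz i)
  refine ⟨∑ i : Fin n, N ^ (i : ℕ) * a i, ?_, ?_⟩
  · simp only [val]
    push_cast
    exact sum_congr rfl fun i _ => by rw [ha i]
  · calc |∑ i : Fin n, N ^ (i : ℕ) * a i| ≤ ∑ i : Fin n, |N ^ (i : ℕ) * a i| :=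
          abs_sum_le_sum_abs _ _
      _ ≤ ∑ i : Fin n, N ^ (n - 1) * B := by
          refine sum_le_sum fun i _ => ?_
          rw [abs_mul, abs_of_nonneg (by positivity : (0 : ℤ) ≤ N ^ (i : ℕ))]
          have h1 : N ^ (i : ℕ) ≤ N ^ (n - 1) := pow_le_pow_right₀ hN (by omega)
          exact mul_le_mul h1 (ha' i) (abs_nonneg _) (by positivity)
      _ = n * N ^ (n - 1) * B := by simp; ring

lemma intB_mono {B B' : ℤ} {Z : Finset ℚ} (h : IntB B Z) (hB : B ≤ B') : IntB B' Z := by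
  intro z hz
  obtain ⟨a, h1, h2⟩ := h z hz
  exact ⟨a, h1, h2.trans hB⟩

/-- lacunary sequences of integers are of no use -/
theorem explicit (n : ℕ) (hn : 2 ≤ n) (κ : ℝ) (hκ : κ < 2 * n / (n + 1)) : ∃ K : ℕ,
    ∀ r : ℕ → ℕ, K ≤ r 0 → (∀ j, r j ^ (n + 1) ≤ r (j + 1)) →
      ∀ S : Finset ℚ, (S : Set ℚ) ⊆ Set.range (fun j => (r j : ℚ)) →
      ∀ C : ℝ, ∃ A : Finset (ℤ × ℤ),
      C * (big S A : ℝ) ^ κ < (proj (-1) A).card := by
  classical
  obtain ⟨m, hm, hnum⟩ := numeric n hn κ hκ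
  refine ⟨n + 4 * m + 2, fun r hr0 hr S hS C => ?_⟩
  set K := n + 4 * m + 2 with hK
  have hle : ∀ i, r i ≤ r (i + 1) := fun i => (Nat.le_self_pow (by omega) _).trans (hr i)
  have hmono : ∀ i, r 0 ≤ r i := fun i => monotone_nat_of_le_succ hle (Nat.zero_le i)
  have hrK : ∀ i, K ≤ r i := fun i => hr0.trans (hmono i)
  have hbig : ∀ i, K * r i ^ n ≤ r (i + 1) := by
    intro i
    calc K * r i ^ n ≤ r i * r i ^ n := Nat.mul_le_mul_right _ (hrK i)
      _ = r i ^ (n + 1) := by ring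
      _ ≤ r (i + 1) := hr i
  set t : ℚ := r 0 + 1 with ht
  set ν : ℕ → ℚ := fun j => (r (j + 1) : ℚ) - r 0 with hν
  have hνZ : ∀ j, ν j = (((r (j + 1) : ℤ) - r 0 : ℤ) : ℚ) := by
    intro j
    simp [hν]
  have h0 : (comb (-t) (X n m ν 0) (X n m ν 0)).card = m ^ 2 := by
    refine base ν fun a b ha _ hb h => ?_
    have hb' : (b : ℚ) ≠ 0 := by exact_mod_cast hb
    rw [eq_div_iff hb'] at h
    have h1 : ((r 0 : ℤ) + 1) * b = a := by
      rw [ht] at h
      exact_mod_cast h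
    have h2 : |((r 0 : ℤ) + 1) * b| = ((r 0 : ℤ) + 1) * |b| := by
      rw [abs_mul, abs_of_nonneg (by positivity)]
    have h3 : (1 : ℤ) ≤ |b| := Int.one_le_abs hb
    have h4 : (m : ℤ) ≤ r 0 := by have := hrK 0; omega
    rw [h1] at h2
    nlinarith
  have hB : ∀ i, IntB (2 * m * (r i : ℤ) ^ n) (comb (-t) (X n m ν i) (X n m ν i)) := by
    intro i
    induction i with
    | zero =>
      intro w hw
      obtain ⟨x, hx, y, hy, rfl⟩ := mem_comb.1 hw
      obtain ⟨a, ha, rfl⟩ := mem_image.1 hx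
      obtain ⟨b, hb, rfl⟩ := mem_image.1 hy
      rw [mem_range] at ha hb
      refine ⟨(a : ℤ) - (r 0 + 1) * b, by rw [ht]; push_cast; ring, ?_⟩
      have h1 : (r 0 : ℤ) ^ 1 ≤ (r 0 : ℤ) ^ n :=
        pow_le_pow_right₀ (by have := hrK 0; omega) (by omega)
      have h12 : (2 : ℤ) * m * (r 0 : ℤ) ^ 1 ≤ 2 * m * (r 0 : ℤ) ^ n :=
        mul_le_mul_of_nonneg_left h1 (by positivity)
      refine le_trans ?_ h12
      have h2 : (m : ℤ) ≤ r 0 := by have := hrK 0; omega
      have h3 : (2 : ℤ) ≤ r 0 := by have := hrK 0; omega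
      have h4 : (0 : ℤ) ≤ b := by positivity
      have h5 : (b : ℤ) ≤ m := by omega
      have h6 : (0 : ℤ) ≤ a := by positivity
      have h7 : (a : ℤ) ≤ m := by omega
      have h8 : ((r 0 : ℤ) + 1) * b ≤ (r 0 + 1) * m :=
        mul_le_mul_of_nonneg_left h5 (by positivity)
      have h9 : 0 ≤ ((r 0 : ℤ) + 1) * b := by positivity
      have h13 : (0 : ℤ) ≤ m := by positivity
      have h10 : ((r 0 : ℤ) + 1) * m ≤ 2 * m * r 0 := by nlinarith
      have h11 : (m : ℤ) ≤ 2 * m * r 0 := by nlinarith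
      rw [pow_one, abs_le]
      constructor <;> linarith
    | succ i ih =>
      have h1 : comb (-t) (X n m ν (i + 1)) (X n m ν (i + 1)) =
          P n (((r (i + 1) : ℤ) - r 0 : ℤ) : ℚ) (comb (-t) (X n m ν i) (X n m ν i)) := by
        rw [← hνZ i]
        simp only [X]
        rw [comb_P]
      rw [h1]
      have h2 := hbig i
      have h4 := hmono i
      have h5 := hrK i
      have h3 : r i ^ n ≥ r i := Nat.le_self_pow (by omega) _
      have h13 : 2 * r i ≤ K * r i ^ n := Nat.mul_le_mul (by omega) h3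
      refine intB_mono (intB_P (n := n) (N := (r (i + 1) : ℤ) - r 0) ih (by omega)) ?_
      have h6 : ((r (i + 1) : ℤ) - r 0) ^ (n - 1) ≤ (r (i + 1) : ℤ) ^ (n - 1) :=
        pow_le_pow_left₀ (by omega) (by omega) _
      have h7 : (n : ℤ) * (r i : ℤ) ^ n ≤ r (i + 1) := by
        have : n * r i ^ n ≤ r (i + 1) := (Nat.mul_le_mul_right _ (by omega)).trans h2
        exact_mod_cast this
      have h10 : (0 : ℤ) ≤ ((r (i + 1) : ℤ) - r 0) ^ (n - 1) := pow_nonneg (by omega) _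
      calc (n : ℤ) * ((r (i + 1) : ℤ) - r 0) ^ (n - 1) * (2 * m * (r i : ℤ) ^ n)
          = 2 * m * (((r (i + 1) : ℤ) - r 0) ^ (n - 1) * (n * (r i : ℤ) ^ n)) := by ring
        _ ≤ 2 * m * ((r (i + 1) : ℤ) ^ (n - 1) * r (i + 1)) := by gcongr
        _ = 2 * m * (r (i + 1) : ℤ) ^ n := by
            obtain ⟨n', rfl⟩ : ∃ n', n = n' + 1 := ⟨n - 1, by omega⟩
            rw [Nat.add_sub_cancel]
            ring
  have hg : ∀ i, Good n (ν i) (comb (-t) (X n m ν i) (X n m ν i)) := by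
    intro i
    rw [hνZ i]
    refine good_of_intB (hB i) ?_
    have h2 := hbig i
    have h3 : r i ≤ r i ^ n := Nat.le_self_pow (by omega) _
    have h4 := hmono i
    have h5 := hrK i
    have h6 : K * r i ^ n = n * r i ^ n + 4 * m * r i ^ n + 2 * r i ^ n := by rw [hK]; ring
    have h7 : 4 * m * r i ^ n + r 0 < r (i + 1) := by
      have h8 : 0 < n * r i ^ n := Nat.mul_pos (by omega) (Nat.pow_pos (by omega))
      omega
    have h9 : (4 * m * (r i : ℤ) ^ n + r 0) < r (i + 1) := by exact_mod_cast h7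
    linarith
  obtain ⟨k₀, hk₀⟩ := hnum C
  have hidx : ∀ q ∈ S, ∃ j, (r j : ℚ) = q := fun q hq => hS (Finset.mem_coe.2 hq)
  choose! idx hidx using hidx
  obtain ⟨A, hA0, hA1, hA2⟩ := assemble (by omega : 0 < m) t ν h0 hg (max k₀ (S.sup idx + 1))
  refine ⟨A, ?_⟩
  rw [hA1]
  refine hk₀ _ (le_max_left _ _) _ (big_pos hA0) (hA2 _ ?_)
  intro q hq
  have h1 := hidx q hq
  have h2 : idx q ≤ S.sup idx := le_sup hq
  rcases hj : idx q with _ | j
  · rw [hj] at h1
    exact Or.inl (by rw [← h1])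
  · refine Or.inr ⟨j, by omega, ?_⟩
    rw [hj] at h1
    rw [← h1]
    simp only [hν, ht]
    ring

end Pool.Agent.R470.AK
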