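import Mathlib
import Pool.Agent.R470.AK.Lac2

/-! # Finite partitions of the slopes in the arithmetic Kakeya conjecture -/

set_option autoImplicit false

namespace Pool.Agent.R470.AK

open Finset

/-- the inequality with exponent `κ` holds for the slopes `S` (and `∞`) -/
def Bound (S : Finset ℚ) (κ : ℝ) : Prop :=
  ∀ A : Finset (ℤ × ℤ), ((proj (-1) A).card : ℝ) ≤ (big S A : ℝ) ^ κ

/-- the coordinate `1 / (r + 1)` of a slope -/
def tm (r : ℚ) : ℚ := 1 / (r + 1)

lemma proj_tm {r : ℚ} (hr : r + 1 ≠ 0) (B : Finset (ℚ × ℚ)) :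
    (B.image fun p => p.1 + r * p.2).card = (B.image fun p => p.2 + tm r * (p.1 - p.2)).card := by
  have e : (B.image fun p => p.1 + r * p.2) =
      (B.image fun p => p.2 + tm r * (p.1 - p.2)).image fun x => (r + 1) * x := by
    rw [image_image]
    refine image_congr fun p _ => ?_
    simp only [Function.comp, tm]
    field_simp
    ring
  rw [e, card_image_of_injective]
  exact fun x y h => mul_left_cancel₀ hr h

lemma proj_le_big {S : Finset ℚ} {r : ℚ} (hr : r ∈ S) (A : Finset (ℤ × ℤ)) :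
    (proj r A).card ≤ big S A :=
  le_max_of_le_right (le_sup (f := fun r => (proj r A).card) hr)

/-- transfer to slopes which contain an affine image in the coordinate `1 / (r + 1)` -/
lemma transfer {S₀ S : Finset ℚ} {κ : ℝ} (hκ : 0 ≤ κ) (h0 : (-1 : ℚ) ∉ S₀) (h : Bound S₀ κ)
    (a b : ℚ) (hb : b ≠ 0) (hinf : ∃ r ∈ S, r + 1 ≠ 0 ∧ tm r = a)
    (hS : ∀ r₀ ∈ S₀, ∃ r ∈ S, r + 1 ≠ 0 ∧ tm r = a + b * tm r₀) : Bound S κ := by
  classical
  intro A
  -- the transformed points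
  set B : Finset (ℚ × ℚ) := A.image fun p : ℤ × ℤ => ((p.1 : ℚ), (p.2 : ℚ)) with hB
  set B' : Finset (ℚ × ℚ) := B.image fun p => (p.2 + a * (p.1 - p.2) + b * (p.1 - p.2),
    p.2 + a * (p.1 - p.2)) with hB'
  obtain ⟨A', -, hA1, hA2⟩ := int_points B'
  have hpB : ∀ r : ℚ, (proj r A) = B.image fun p => p.1 + r * p.2 := by
    intro r
    rw [hB, image_image]
    rfl
  have hdir : ∀ r₀ r : ℚ, r₀ + 1 ≠ 0 → r + 1 ≠ 0 → tm r = a + b * tm r₀ →
      (proj r₀ A').card = (proj r A).card := by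
    intro r₀ r h1 h2 h3
    rw [hA1, proj_tm h1, hpB, proj_tm h2, hB', image_image]
    congr 1
    refine image_congr fun p _ => ?_
    simp only [Function.comp, h3]
    ring
  have hm1 : (proj (-1) A').card = (proj (-1) A).card := by
    rw [hA1, hpB]
    have e : (B'.image fun p : ℚ × ℚ => p.1 + (-1) * p.2) =
        (B.image fun p : ℚ × ℚ => p.1 + (-1) * p.2).image fun x : ℚ => b * x := by
      ext w
      simp only [hB', mem_image]
      constructor
      · rintro ⟨_, ⟨p, hp, rfl⟩, rfl⟩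
        exact ⟨_, ⟨p, hp, rfl⟩, by ring⟩
      · rintro ⟨_, ⟨p, hp, rfl⟩, rfl⟩
        exact ⟨_, ⟨p, hp, rfl⟩, by ring⟩
    have hinj : Function.Injective fun x : ℚ => b * x := fun x y h => mul_left_cancel₀ hb h
    rw [e, card_image_of_injective _ hinj]
  have hbig : big S₀ A' ≤ big S A := by
    unfold big
    refine max_le ?_ (Finset.sup_le fun r₀ hr₀ => ?_)
    · obtain ⟨r, hrS, hr1, hr2⟩ := hinf
      have : (projInf A').card = (proj r A).card := by
        rw [hA2, hpB, proj_tm hr1, hB', image_image]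
        congr 1
        refine image_congr fun p _ => ?_
        simp only [Function.comp, hr2]
      rw [this]
      exact proj_le_big hrS A
    · obtain ⟨r, hrS, hr1, hr2⟩ := hS r₀ hr₀
      have h1 : r₀ + 1 ≠ 0 := fun h2 => h0 (by
        have : r₀ = -1 := by linarith
        rwa [this] at hr₀)
      rw [hdir r₀ r h1 hr1 hr2]
      exact proj_le_big hrS A
  have h2 := h A'
  rw [hm1] at h2
  refine h2.trans (Real.rpow_le_rpow (Nat.cast_nonneg _) (by exact_mod_cast hbig) hκ)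

/-- finitely many slopes fit into a progression in the coordinate `1 / (r + 1)` -/
lemma fit (S₀ : Finset ℚ) : ∃ (k : ℕ) (q : ℚ) (p : ℕ), q ≠ 0 ∧ p ≤ k ∧
    ∀ r ∈ S₀, ∃ j ≤ k, (j : ℚ) = p + q * tm r := by
  classical
  set q : ℕ := ∏ r ∈ S₀, (tm r).den with hq
  have hq0 : (q : ℚ) ≠ 0 := by
    rw [Nat.cast_ne_zero, hq, prod_ne_zero_iff]
    exact fun r _ => (tm r).den_nz
  have hz : ∀ r ∈ S₀, ∃ z : ℤ, (z : ℚ) = q * tm r := by
    intro r hr
    obtain ⟨c, hc⟩ : (tm r).den ∣ q := dvd_prod_of_mem (fun r => (tm r).den) hr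
    refine ⟨c * (tm r).num, ?_⟩
    have h3 : ((tm r).den : ℚ) * tm r = (tm r).num := by
      rw [mul_comm]
      exact Rat.mul_den_eq_num _
    rw [hc]
    push_cast
    rw [← h3]
    ring
  choose! z hz using hz
  set M : ℕ := S₀.sup fun r => (z r).natAbs with hM
  refine ⟨2 * M, q, M, hq0, by omega, fun r hr => ?_⟩
  have h1 : (z r).natAbs ≤ M := le_sup (f := fun r => (z r).natAbs) hr
  refine ⟨(M + z r).toNat, by omega, ?_⟩
  have h2 : (((M + z r).toNat : ℕ) : ℤ) = M + z r := Int.toNat_of_nonneg (by omega)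
  have h3 : (((M + z r).toNat : ℕ) : ℚ) = (((M + z r).toNat : ℕ) : ℤ) := by push_cast; rfl
  rw [h3, h2, ← hz r hr]
  push_cast
  ring

/-- a set of slopes with progressions of any length in the coordinate `1 / (r + 1)` -/
def Rich (R : Set ℚ) : Prop :=
  ∀ k : ℕ, ∃ a b : ℚ, b ≠ 0 ∧ ∀ j ≤ k, ∃ r ∈ R, r + 1 ≠ 0 ∧ tm r = a + b * j

/-- rich sets of slopes are as good as all slopes -/
theorem rich_bound {R : Set ℚ} (hR : Rich R) {S₀ : Finset ℚ} {κ : ℝ} (hκ : 0 ≤ κ)
    (h0 : (-1 : ℚ) ∉ S₀) (h : Bound S₀ κ) :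
    ∃ S : Finset ℚ, (S : Set ℚ) ⊆ R ∧ (-1 : ℚ) ∉ S ∧ Bound S κ := by
  classical
  obtain ⟨k, q, p, hq, hpk, hj⟩ := fit S₀
  obtain ⟨a, b, hb, hab⟩ := hR k
  choose! f hfR hf1 hf2 using hab
  refine ⟨(range (k + 1)).image f, ?_, ?_, ?_⟩
  · intro r hr
    rw [mem_coe, mem_image] at hr
    obtain ⟨j, hj', rfl⟩ := hr
    rw [mem_range] at hj'
    exact hfR j (by omega)
  · intro hr
    rw [mem_image] at hr
    obtain ⟨j, hj', hr⟩ := hr
    rw [mem_range] at hj'
    refine hf1 j (by omega) ?_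
    rw [hr]
    norm_num
  · refine transfer hκ h0 h (a + b * p) (b * q) (mul_ne_zero hb hq) ?_ ?_
    · exact ⟨f p, mem_image.2 ⟨p, mem_range.2 (by omega), rfl⟩, hf1 p hpk, hf2 p hpk⟩
    · intro r₀ hr₀
      obtain ⟨j, hjk, hje⟩ := hj r₀ hr₀
      refine ⟨f j, mem_image.2 ⟨j, mem_range.2 (by omega), rfl⟩, hf1 j hjk, ?_⟩
      rw [hf2 j hjk, hje]
      ring

/-- van der Waerden for the reciprocals -/
theorem vdw {c : ℕ} (χ : ℕ → Fin c) (k : ℕ) : ∃ i : Fin c, ∃ a b : ℚ, b ≠ 0 ∧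
    ∀ j ≤ k, ∃ n : ℕ, χ n = i ∧ tm n = a + b * j := by
  classical
  obtain ⟨ι, _, hι⟩ := Combinatorics.Line.exists_mono_in_high_dimension (Fin (k + 1)) (Fin c)
  set N : ℕ := 1 + Fintype.card ι * k with hN
  -- the number of a point
  let w : (ι → Fin (k + 1)) → ℕ := fun x => 1 + ∑ i, (x i : ℕ)
  have hw1 : ∀ x, 1 ≤ w x := fun x => Nat.le_add_right _ _
  have hwN : ∀ x, w x ≤ N := by
    intro x
    have : ∑ i, (x i : ℕ) ≤ ∑ _i : ι, k := sum_le_sum fun i _ => Nat.lt_succ_iff.1 (x i).2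
    simp only [sum_const, card_univ, smul_eq_mul] at this
    simp only [w, hN]
    omega
  obtain ⟨l, i, hl⟩ := hι fun x => χ (N.factorial / w x - 1)
  -- the line
  set s : Finset ι := univ.filter fun i => l.idxFun i = none with hs
  have hs0 : 0 < s.card := by
    obtain ⟨i₀, hi₀⟩ := l.proper
    exact card_pos.2 ⟨i₀, mem_filter.2 ⟨mem_univ _, hi₀⟩⟩
  have hline : ∀ x : Fin (k + 1), w (l x) = w (l 0) + s.card * x := by
    intro x
    have e : ∀ y : Fin (k + 1), ∑ i, ((l y i : Fin (k + 1)) : ℕ) =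
        s.card * y + ∑ i ∈ univ.filter (fun i => ¬ l.idxFun i = none),
          ((l 0 i : Fin (k + 1)) : ℕ) := by
      intro y
      rw [← sum_filter_add_sum_filter_not univ (fun i => l.idxFun i = none)]
      congr 1
      · rw [← smul_eq_mul, ← sum_const]
        refine sum_congr rfl fun i hi => ?_
        rw [mem_filter] at hi
        rw [Combinatorics.Line.coe_apply, hi.2]
        rfl
      · refine sum_congr rfl fun i hi => ?_
        rw [mem_filter] at hi
        obtain ⟨v, hv⟩ := Option.ne_none_iff_exists'.1 hi.2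
        rw [Combinatorics.Line.coe_apply, Combinatorics.Line.coe_apply, hv]
        rfl
    show 1 + _ = 1 + _ + _
    rw [e x, e 0]
    have h00 : ((0 : Fin (k + 1)) : ℕ) = 0 := rfl
    rw [h00]
    ring
  have hfac : (0 : ℚ) < (N.factorial : ℚ) := by exact_mod_cast N.factorial_pos
  refine ⟨i, (w (l 0) : ℚ) / N.factorial, (s.card : ℚ) / N.factorial, ?_, fun j hj => ?_⟩
  · have : (s.card : ℚ) ≠ 0 := by exact_mod_cast hs0.ne'
    exact div_ne_zero this hfac.ne'
  · set x : Fin (k + 1) := ⟨j, by omega⟩ with hx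
    refine ⟨N.factorial / w (l x) - 1, hl x, ?_⟩
    have hdvd : w (l x) ∣ N.factorial := Nat.dvd_factorial (hw1 _) (hwN _)
    have hpos : 1 ≤ N.factorial / w (l x) :=
      Nat.div_pos (Nat.le_of_dvd N.factorial_pos hdvd) (hw1 _)
    have h1 : ((N.factorial / w (l x) - 1 : ℕ) : ℚ) + 1 = (N.factorial : ℚ) / w (l x) := by
      rw [Nat.cast_sub hpos, Nat.cast_div hdvd (Nat.cast_ne_zero.2 (by have := hw1 (l x); omega))]
      push_cast
      ring
    unfold tm
    rw [h1, hline x]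
    push_cast
    rw [one_div_div]
    ring

/-- one class of every finite partition is rich -/
theorem class_rich {c : ℕ} (χ : ℕ → Fin c) : ∃ i : Fin c,
    Rich {r : ℚ | ∃ n : ℕ, χ n = i ∧ r = n} := by
  classical
  choose i hi using vdw χ
  -- a class that occurs infinitely often
  obtain ⟨i₀, hi₀⟩ := Finite.exists_infinite_fiber i
  refine ⟨i₀, fun k => ?_⟩
  have hinf : (i ⁻¹' {i₀}).Infinite := Set.infinite_coe_iff.1 hi₀
  obtain ⟨k', hk', hkk⟩ := hinf.exists_gt k
  obtain ⟨a, b, hb, h⟩ := hi k'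
  refine ⟨a, b, hb, fun j hj => ?_⟩
  obtain ⟨n, hn1, hn2⟩ := h j (by omega)
  refine ⟨n, ⟨n, ?_, rfl⟩, by positivity, hn2⟩
  rw [hn1]
  exact hk'

end Pool.Agent.R470.AK
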