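import Mathlib

/-! # Patterns with prescribed differences modulo a prime: the random polynomial argument -/

set_option autoImplicit false

namespace Pool.Agent.R470.AK

open Finset

section field

variable {F : Type} [Field F] [Fintype F] [DecidableEq F]

/-- value of the polynomial -/
def ev (L : ℕ) (τ : F) (f : Fin L → F) : F := ∑ l : Fin L, τ ^ (l : ℕ) * f l

lemma ev_sub (L : ℕ) (τ : F) (f g : Fin L → F) : ev L τ (f - g) = ev L τ f - ev L τ g := by
  simp [ev, mul_sub, Finset.sum_sub_distrib]

lemma card_zero (L : ℕ) (h : Fin L → F) (hne : h ≠ 0) :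
    (univ.filter fun τ : F => ev L τ h = 0).card ≤ L := by
  classical
  let P : Polynomial F := ∑ l : Fin L, Polynomial.monomial (l : ℕ) (h l)
  have hco : ∀ l : Fin L, P.coeff l = h l := by
    intro l
    simp only [P, Polynomial.finsetSum_coeff, Polynomial.coeff_monomial]
    rw [Finset.sum_eq_single l]
    · simp
    · intro b _ hb
      rw [if_neg]
      exact fun h => hb (Fin.ext h)
    · simp
  have hP : P ≠ 0 := by
    intro h0
    apply hne
    ext l
    rw [← hco l, h0]
    simp
  have hdeg : P.natDegree ≤ L := by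
    apply Polynomial.natDegree_sum_le_of_forall_le
    intro l _
    exact (Polynomial.natDegree_monomial_le _).trans l.2.le
  have hev : ∀ τ, P.eval τ = ev L τ h := by
    intro τ
    simp [P, Polynomial.eval_finsetSum, ev, mul_comm]
  have hsub : (univ.filter fun τ : F => ev L τ h = 0) ⊆ P.roots.toFinset := by
    intro τ hτ
    rw [Multiset.mem_toFinset, Polynomial.mem_roots hP, Polynomial.IsRoot, hev]
    exact (mem_filter.1 hτ).2
  calc _ ≤ P.roots.toFinset.card := card_le_card hsub
    _ ≤ Multiset.card P.roots := Multiset.toFinset_card_le _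
    _ ≤ P.natDegree := Polynomial.card_roots' P
    _ ≤ L := hdeg

lemma cs {α β : Type} [DecidableEq α] [DecidableEq β] (X : Finset α) (φ : α → β) :
    X.card ^ 2 ≤ (X.image φ).card * ((X ×ˢ X).filter fun p => φ p.1 = φ p.2).card := by
  have h1 : X.card = ∑ y ∈ X.image φ, (X.filter fun x => φ x = y).card :=
    card_eq_sum_card_image φ X
  have h2 : ((X ×ˢ X).filter fun p => φ p.1 = φ p.2).card =
      ∑ y ∈ X.image φ, (X.filter fun x => φ x = y).card ^ 2 := by
    rw [card_eq_sum_card_fiberwise (f := fun p : α × α => φ p.1) (t := X.image φ)]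
    · apply sum_congr rfl
      intro y _
      rw [sq, ← card_product]
      congr 1
      ext ⟨a, b⟩
      simp only [mem_filter, mem_product]
      constructor
      · rintro ⟨⟨⟨ha, hb⟩, h⟩, hy⟩
        exact ⟨⟨ha, hy⟩, hb, h ▸ hy⟩
      · rintro ⟨⟨ha, hy⟩, hb, h⟩
        exact ⟨⟨⟨ha, hb⟩, hy.trans h.symm⟩, hy⟩
    · intro p hp
      rw [mem_coe, mem_filter, mem_product] at hp
      exact mem_coe.2 (mem_image_of_mem _ hp.1.1)
  rw [h2]
  calc X.card ^ 2 = (∑ y ∈ X.image φ, (X.filter fun x => φ x = y).card) ^ 2 := by rw [← h1]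
    _ ≤ _ := sq_sum_le_card_mul_sum_sq

/-- some polynomial evaluation has a large image -/
lemma large_image (L : ℕ) (D : Finset F) (hQ : D.card ^ L ≤ Fintype.card F) (hD : D.Nonempty) :
    ∃ τ : F, D.card ^ L ≤
      (1 + L) * ((Fintype.piFinset fun _ : Fin L => D).image (ev L τ)).card := by
  classical
  set X := Fintype.piFinset fun _ : Fin L => D with hX
  have hXc : X.card = D.card ^ L := by simp [hX]
  set Q := D.card ^ L with hQd
  have hQ0 : 0 < Q := pow_pos hD.card_pos _
  -- the sum of the energies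
  have hsum : ∑ τ : F, ((X ×ˢ X).filter fun p => ev L τ p.1 = ev L τ p.2).card ≤
      Q * Fintype.card F * (1 + L) := by
    have e1 : ∑ τ : F, ((X ×ˢ X).filter fun p => ev L τ p.1 = ev L τ p.2).card =
        ∑ p ∈ X ×ˢ X, (univ.filter fun τ : F => ev L τ p.1 = ev L τ p.2).card := by
      simp_rw [card_filter]
      rw [sum_comm]
    have e2 : ∀ p ∈ X ×ˢ X, (univ.filter fun τ : F => ev L τ p.1 = ev L τ p.2).card ≤
        (if p.1 = p.2 then Fintype.card F else 0) + L := by
      intro p _
      by_cases hp : p.1 = p.2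
      · rw [if_pos hp]
        exact (card_le_univ _).trans (Nat.le_add_right _ _)
      · rw [if_neg hp, zero_add]
        have : (univ.filter fun τ : F => ev L τ p.1 = ev L τ p.2) =
            univ.filter fun τ : F => ev L τ (p.1 - p.2) = 0 := by
          ext τ
          simp [ev_sub, sub_eq_zero]
        rw [this]
        exact card_zero L _ (sub_ne_zero.2 hp)
    have e3 : ((X ×ˢ X).filter fun p => p.1 = p.2).card = Q := by
      rw [← hXc]
      have : (X ×ˢ X).filter (fun p => p.1 = p.2) = X.image fun x => (x, x) := by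
        ext ⟨a, b⟩
        simp only [mem_filter, mem_product, mem_image, Prod.mk.injEq]
        constructor
        · rintro ⟨⟨ha, _⟩, h⟩
          exact ⟨a, ha, rfl, h⟩
        · rintro ⟨x, hx, rfl, rfl⟩
          exact ⟨⟨hx, hx⟩, rfl⟩
      rw [this, card_image_of_injective]
      intro x y h
      exact (Prod.mk.inj h).1
    calc _ = ∑ p ∈ X ×ˢ X, (univ.filter fun τ : F => ev L τ p.1 = ev L τ p.2).card := e1
      _ ≤ ∑ p ∈ X ×ˢ X, ((if p.1 = p.2 then Fintype.card F else 0) + L) := sum_le_sum e2
      _ = Q * Fintype.card F + Q * Q * L := by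
          rw [sum_add_distrib, ← sum_filter, sum_const, sum_const, e3, card_product, hXc]
          simp
      _ ≤ Q * Fintype.card F + Q * Fintype.card F * L := by gcongr
      _ = Q * Fintype.card F * (1 + L) := by ring
  have hex : ∃ τ : F, ((X ×ˢ X).filter fun p => ev L τ p.1 = ev L τ p.2).card ≤ Q * (1 + L) := by
    by_contra hcon
    push Not at hcon
    have : ∑ _τ : F, (Q * (1 + L)) <
        ∑ τ : F, ((X ×ˢ X).filter fun p => ev L τ p.1 = ev L τ p.2).card :=
      sum_lt_sum_of_nonempty univ_nonempty fun τ _ => hcon τ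
    rw [sum_const, card_univ, smul_eq_mul] at this
    have h2 := this.trans_le hsum
    have h3 : Fintype.card F * (Q * (1 + L)) = Q * Fintype.card F * (1 + L) := by ring
    omega
  obtain ⟨τ, hτ⟩ := hex
  refine ⟨τ, ?_⟩
  have h1 := cs X (ev L τ)
  rw [hXc] at h1
  have h2 : Q ^ 2 ≤ (X.image (ev L τ)).card * (Q * (1 + L)) := h1.trans (by gcongr)
  have h3 : Q * Q ≤ Q * ((1 + L) * (X.image (ev L τ)).card) := by nlinarith
  exact Nat.le_of_mul_le_mul_left h3 hQ0

end field

section group

variable {G : Type} [AddCommGroup G] [Fintype G] [DecidableEq G]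

/-- covering a finite group by few translates of a large set -/
lemma cover_step (D : Finset G) (c : ℕ) (hc : 0 < c) (hD : Fintype.card G ≤ c * D.card) (m : ℕ) :
    ∃ T : Finset G, T.card ≤ m ∧
      ((univ.filter fun x : G => ∀ t ∈ T, x - t ∉ D).card : ℝ) ≤
        Fintype.card G * (1 - 1 / (c : ℝ)) ^ m := by
  classical
  induction m with
  | zero => exact ⟨∅, by simp, by simp⟩
  | succ m ih =>
    obtain ⟨T, hT, hU⟩ := ih
    set U := univ.filter fun x : G => ∀ t ∈ T, x - t ∉ D with hUd
    have hcR : (0 : ℝ) < c := by exact_mod_cast hc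
    have hsum : ∑ t : G, (U.filter fun u => u - t ∈ D).card = U.card * D.card := by
      simp_rw [card_filter]
      rw [sum_comm]
      have : ∀ u ∈ U, ∑ t : G, (if u - t ∈ D then 1 else 0) = D.card := by
        intro u _
        rw [← card_filter]
        have e : (univ.filter fun t : G => u - t ∈ D) = D.image fun d => u - d := by
          ext t
          simp only [mem_filter, mem_univ, true_and, mem_image]
          constructor
          · intro h
            exact ⟨u - t, h, by abel⟩
          · rintro ⟨d, hd, rfl⟩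
            simpa using hd
        rw [e, card_image_of_injective]
        intro x y h
        simpa using h
      rw [sum_congr rfl this, sum_const, smul_eq_mul]
    have hex : ∃ t : G, U.card ≤ c * (U.filter fun u => u - t ∈ D).card := by
      by_contra hcon
      push Not at hcon
      have h1 : ∑ t : G, (c * (U.filter fun u => u - t ∈ D).card) < ∑ _t : G, U.card :=
        sum_lt_sum_of_nonempty univ_nonempty fun t _ => hcon t
      rw [← mul_sum, hsum, sum_const, card_univ, smul_eq_mul] at h1
      have h2 : Fintype.card G * U.card ≤ c * D.card * U.card := by gcongr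
      nlinarith
    obtain ⟨t, ht⟩ := hex
    refine ⟨insert t T, (card_insert_le _ _).trans (by omega), ?_⟩
    have hsub : (univ.filter fun x : G => ∀ t' ∈ insert t T, x - t' ∉ D) ⊆
        U \ (U.filter fun u => u - t ∈ D) := by
      intro x hx
      rw [mem_filter] at hx
      have hx2 := hx.2
      rw [mem_sdiff]
      have hxU : x ∈ U := by
        rw [hUd, mem_filter]
        exact ⟨mem_univ _, fun t' ht' => hx2 t' (mem_insert_of_mem ht')⟩
      refine ⟨hxU, ?_⟩
      rw [mem_filter]
      exact fun h => hx2 t (mem_insert_self _ _) h.2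
    have hcard := card_le_card hsub
    rw [card_sdiff_of_subset (filter_subset _ _)] at hcard
    have hle : (U.filter fun u => u - t ∈ D).card ≤ U.card := card_le_card (filter_subset _ _)
    have hR : ((univ.filter fun x : G => ∀ t' ∈ insert t T, x - t' ∉ D).card : ℝ) ≤
        U.card - (U.filter fun u => u - t ∈ D).card := by
      have : ((univ.filter fun x : G => ∀ t' ∈ insert t T, x - t' ∉ D).card : ℝ) ≤
        ((U.card - (U.filter fun u => u - t ∈ D).card : ℕ) : ℝ) := by exact_mod_cast hcard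
      rwa [Nat.cast_sub hle] at this
    have htR : (U.card : ℝ) / c ≤ (U.filter fun u => u - t ∈ D).card := by
      rw [div_le_iff₀ hcR, mul_comm]
      exact_mod_cast ht
    calc _ ≤ (U.card : ℝ) - (U.filter fun u => u - t ∈ D).card := hR
      _ ≤ (U.card : ℝ) - U.card / c := by linarith
      _ = U.card * (1 - 1 / (c : ℝ)) := by ring
      _ ≤ Fintype.card G * (1 - 1 / (c : ℝ)) ^ m * (1 - 1 / (c : ℝ)) := by
          apply mul_le_mul_of_nonneg_right hU
          rw [sub_nonneg, div_le_one hcR]
          exact_mod_cast hc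
      _ = _ := by rw [pow_succ]; ring

lemma cover (D : Finset G) (c : ℕ) (hc : 0 < c) (hD : Fintype.card G ≤ c * D.card) :
    ∃ T : Finset G, T.card ≤ c * (Nat.log 2 (Fintype.card G) + 1) ∧
      ∀ x : G, ∃ t ∈ T, x - t ∈ D := by
  classical
  obtain ⟨T, hT, hU⟩ := cover_step D c hc hD (c * (Nat.log 2 (Fintype.card G) + 1))
  refine ⟨T, hT, ?_⟩
  by_contra hcon
  push Not at hcon
  obtain ⟨x, hx⟩ := hcon
  have h1 : 1 ≤ (univ.filter fun x : G => ∀ t ∈ T, x - t ∉ D).card :=
    card_pos.2 ⟨x, by simpa using hx⟩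
  have hcR : (0 : ℝ) < c := by exact_mod_cast hc
  have hc1 : (1 : ℝ) ≤ c := by exact_mod_cast hc
  have h2 : (1 - 1 / (c : ℝ)) ^ c ≤ 1 / 2 := by
    have h3 : (1 - 1 / (c : ℝ)) ^ c ≤ Real.exp (-1) := by
      have h4 : 1 - 1 / (c : ℝ) ≤ Real.exp (-(1 / (c : ℝ))) := by
        have := Real.add_one_le_exp (-(1 / (c : ℝ)))
        linarith
      calc (1 - 1 / (c : ℝ)) ^ c ≤ (Real.exp (-(1 / (c : ℝ)))) ^ c := by
            apply pow_le_pow_left₀ _ h4
            rw [sub_nonneg, div_le_one hcR]
            exact hc1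
        _ = Real.exp (-1) := by
            rw [← Real.exp_nat_mul]
            congr 1
            field_simp
    have h5 : Real.exp (-1) ≤ 1 / 2 := by
      rw [Real.exp_neg, inv_eq_one_div]
      apply one_div_le_one_div_of_le (by norm_num)
      have := Real.add_one_le_exp (1 : ℝ)
      linarith
    exact h3.trans h5
  have h0 : (0 : ℝ) ≤ (1 - 1 / (c : ℝ)) ^ c := by
    apply pow_nonneg
    rw [sub_nonneg, div_le_one hcR]
    exact hc1
  have h6 : (1 - 1 / (c : ℝ)) ^ (c * (Nat.log 2 (Fintype.card G) + 1)) ≤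
      (1 / 2) ^ (Nat.log 2 (Fintype.card G) + 1) := by
    rw [pow_mul]
    exact pow_le_pow_left₀ h0 h2 _
  have h7 : (Fintype.card G : ℝ) < 2 ^ (Nat.log 2 (Fintype.card G) + 1) := by
    exact_mod_cast Nat.lt_pow_succ_log_self (by norm_num) _
  have h8 : (Fintype.card G : ℝ) * (1 - 1 / (c : ℝ)) ^ (c * (Nat.log 2 (Fintype.card G) + 1)) <
      1 := by
    calc _ ≤ (Fintype.card G : ℝ) * (1 / 2) ^ (Nat.log 2 (Fintype.card G) + 1) := by gcongr
      _ < 2 ^ (Nat.log 2 (Fintype.card G) + 1) * (1 / 2) ^ (Nat.log 2 (Fintype.card G) + 1) := by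
          apply mul_lt_mul_of_pos_right h7
          positivity
      _ = 1 := by
          rw [← mul_pow]
          norm_num
  have h9 : (1 : ℝ) ≤ (univ.filter fun x : G => ∀ t ∈ T, x - t ∉ D).card := by exact_mod_cast h1
  linarith

end group

/-- patterns with all differences modulo `p` -/
theorem mod_p {S B D : Finset ℤ} {a : ℤ → ℤ} (h : ∀ d ∈ D, ∀ s ∈ S, a d + s * d ∈ B)
    (hDn : D.Nonempty) (L p : ℕ) [Fact p.Prime] (h1 : D.card ^ L ≤ p) (h2 : p ≤ 2 * D.card ^ L)
    (h3 : ∀ d ∈ D, 2 * |d| < p) :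
    ∃ B' : Finset (ZMod p), B'.card ≤ S.card * (2 * (1 + L) * (Nat.log 2 p + 1)) * B.card ^ L ∧
      ∀ r : ZMod p, ∃ a : ZMod p, ∀ s ∈ S, a + (s : ZMod p) * r ∈ B' := by
  classical
  set D' : Finset (ZMod p) := D.image fun d : ℤ => (d : ZMod p) with hD'
  set B₀ : Finset (ZMod p) := B.image fun b : ℤ => (b : ZMod p) with hB₀
  have hinj : Set.InjOn (fun d : ℤ => (d : ZMod p)) D := by
    intro x hx y hy hxy
    have e : ((x - y : ℤ) : ZMod p) = 0 := by
      push_cast
      exact sub_eq_zero.2 hxy
    rw [ZMod.intCast_zmod_eq_zero_iff_dvd] at e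
    have h5 : |x - y| < p := by
      have := h3 x hx
      have := h3 y hy
      have := abs_sub x y
      omega
    have h6 := Int.eq_zero_of_abs_lt_dvd e h5
    omega
  have hD'c : D'.card = D.card := card_image_of_injOn hinj
  have hB₀c : B₀.card ≤ B.card := card_image_le
  have hD'n : D'.Nonempty := hDn.image _
  -- choose the starting points
  have hstart : ∀ d ∈ D', ∃ α : ZMod p, ∀ s ∈ S, α + (s : ZMod p) * d ∈ B₀ := by
    intro d hd
    obtain ⟨x, hx, rfl⟩ := mem_image.1 hd
    refine ⟨(a x : ZMod p), fun s hs => ?_⟩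
    refine mem_image.2 ⟨a x + s * x, h x hx s hs, ?_⟩
    push_cast
    ring
  choose! α hα using hstart
  obtain ⟨τ, hτ⟩ := large_image (F := ZMod p) L D' (by rw [hD'c, ZMod.card]; exact h1) hD'n
  rw [hD'c] at hτ
  set X := Fintype.piFinset fun _ : Fin L => D' with hX
  set Dτ := X.image (ev L τ) with hDτ
  set Bτ := (Fintype.piFinset fun _ : Fin L => B₀).image (ev L τ) with hBτ
  have hBτc : Bτ.card ≤ B.card ^ L := by
    calc Bτ.card ≤ (Fintype.piFinset fun _ : Fin L => B₀).card := card_image_le
      _ = B₀.card ^ L := by simp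
      _ ≤ _ := Nat.pow_le_pow_left hB₀c _
  have hpat : ∀ d ∈ Dτ, ∃ β : ZMod p, ∀ s ∈ S, β + (s : ZMod p) * d ∈ Bτ := by
    intro d hd
    obtain ⟨f, hf, rfl⟩ := mem_image.1 hd
    rw [hX, Fintype.mem_piFinset] at hf
    refine ⟨ev L τ fun l => α (f l), fun s hs => ?_⟩
    refine mem_image.2 ⟨fun l => α (f l) + (s : ZMod p) * f l, ?_, ?_⟩
    · rw [Fintype.mem_piFinset]
      exact fun l => hα (f l) (hf l) s hs
    · simp only [ev, mul_sum, ← sum_add_distrib]
      exact sum_congr rfl fun l _ => by ring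
  obtain ⟨T, hT, hcov⟩ := cover Dτ (2 * (1 + L)) (by omega) (by
    rw [ZMod.card]
    calc p ≤ 2 * D.card ^ L := h2
      _ ≤ 2 * ((1 + L) * Dτ.card) := by gcongr
      _ = 2 * (1 + L) * Dτ.card := by ring)
  rw [ZMod.card] at hT
  refine ⟨(S ×ˢ T ×ˢ Bτ).image fun q => q.2.2 + (q.1 : ZMod p) * q.2.1, ?_, ?_⟩
  · calc _ ≤ (S ×ˢ T ×ˢ Bτ).card := card_image_le
      _ = S.card * (T.card * Bτ.card) := by rw [card_product, card_product]
      _ ≤ S.card * ((2 * (1 + L) * (Nat.log 2 p + 1)) * B.card ^ L) := by gcongr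
      _ = _ := by ring
  · intro r
    obtain ⟨t, ht, hr⟩ := hcov r
    obtain ⟨β, hβ⟩ := hpat _ hr
    refine ⟨β, fun s hs => ?_⟩
    refine mem_image.2 ⟨(s, t, β + (s : ZMod p) * (r - t)), ?_, ?_⟩
    · simp only [mem_product]
      exact ⟨hs, ht, hβ s hs⟩
    · simp only
      ring

end Pool.Agent.R470.AK
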