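import Pool.Agent.R470.AK.Pat1

/-! # From patterns modulo `p` to sets of real numbers of small Minkowski dimension -/

set_option autoImplicit false

namespace Pool.Agent.R470.AK

open Finset Filter Topology

/-- small pattern sets modulo large primes -/
theorem mod_p_small {S B D : Finset ℤ} {a : ℤ → ℤ} (h : ∀ d ∈ D, ∀ s ∈ S, a d + s * d ∈ B)
    (hD : 2 ≤ D.card) (κ κ' : ℝ) (hκ' : 0 < κ') (hκ : κ' < κ) (hB : (B.card : ℝ) ^ κ ≤ D.card)
    (C : ℝ) :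
    ∃ p : ℕ, p.Prime ∧ ∃ B' : Finset (ZMod p), C * B'.card ≤ (p : ℝ) ^ (1 / κ') ∧
      ∀ r : ZMod p, ∃ a : ZMod p, ∀ s ∈ S, a + (s : ZMod p) * r ∈ B' := by
  classical
  have hκ0 : 0 < κ := hκ'.trans hκ
  set N := D.card with hN
  have hDn : D.Nonempty := card_pos.1 (by omega)
  set η := 1 / κ' - 1 / κ with hη
  have hη0 : 0 < η := sub_pos.2 (one_div_lt_one_div_of_lt hκ' hκ)
  set ρ : ℝ := (2 : ℝ) ^ η with hρ
  have hρ1 : 1 < ρ := Real.one_lt_rpow (by norm_num) hη0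
  set M := Nat.log 2 N + 1 with hM
  set c : ℝ := |C| * S.card * 2 * (2 + M) * 4 with hc
  have hc0 : 0 ≤ c := by positivity
  obtain ⟨H, hH⟩ : ∃ H : ℕ, ∀ d ∈ D, |d| ≤ H :=
    ⟨∑ d ∈ D, d.natAbs, fun d hd => by
      have : d.natAbs ≤ ∑ d ∈ D, d.natAbs :=
        single_le_sum (f := fun d : ℤ => d.natAbs) (fun _ _ => Nat.zero_le _) hd
      rw [Int.abs_eq_natAbs]
      exact_mod_cast this⟩
  -- choose `L`
  have hev : ∀ᶠ L : ℕ in atTop, c * ((L : ℝ) ^ 2 / ρ ^ L) < 1 := by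
    have h1 := (tendsto_pow_const_div_const_pow_of_one_lt 2 hρ1).const_mul c
    rw [mul_zero] at h1
    exact h1.eventually (gt_mem_nhds one_pos)
  obtain ⟨L, hL1, hL2, hL3⟩ := (hev.and ((eventually_ge_atTop 1).and
    (eventually_ge_atTop (2 * H)))).exists
  have hρL : 0 < ρ ^ L := by positivity
  have hcL : c * (L : ℝ) ^ 2 ≤ ρ ^ L := by
    have : c * (L : ℝ) ^ 2 / ρ ^ L < 1 := by
      rw [mul_div_assoc]
      exact hL1
    rw [div_lt_one hρL] at this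
    exact this.le
  have hNL : N ^ L ≠ 0 := pow_ne_zero _ (by omega)
  obtain ⟨p, hp, hp1, hp2⟩ := Nat.exists_prime_lt_and_le_two_mul (N ^ L) hNL
  haveI : Fact p.Prime := ⟨hp⟩
  have h2L : 2 ^ L ≤ N ^ L := Nat.pow_le_pow_left hD L
  have hLp : L < p := (Nat.lt_two_pow_self).trans_le (h2L.trans hp1.le)
  obtain ⟨B', hB', hpat⟩ := mod_p h hDn L p hp1.le hp2 (by
    intro d hd
    have := hH d hd
    omega)
  refine ⟨p, hp, B', ?_, hpat⟩
  have hp0 : (0 : ℝ) < p := by exact_mod_cast hp.pos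
  -- the logarithm
  have hlog : Nat.log 2 p + 1 ≤ (2 + M) * (1 + L) := by
    have h3 : N < 2 ^ M := Nat.lt_pow_succ_log_self (by norm_num) _
    have h4 : p < 2 ^ (2 + M * L) := by
      calc p ≤ 2 * N ^ L := hp2
        _ ≤ 2 * (2 ^ M) ^ L := by gcongr
        _ = 2 ^ (1 + M * L) := by rw [← pow_mul, pow_add, pow_one]
        _ < 2 ^ (2 + M * L) := Nat.pow_lt_pow_right (by norm_num) (by omega)
    have h5 := Nat.log_lt_of_lt_pow (hp.ne_zero) h4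
    nlinarith
  -- the size of `B ^ L`
  have hBL : (B.card : ℝ) ^ L ≤ (p : ℝ) ^ (1 / κ) := by
    have h6 : (B.card : ℝ) ≤ (N : ℝ) ^ (1 / κ) := by
      calc (B.card : ℝ) = ((B.card : ℝ) ^ κ) ^ (1 / κ) := by
            rw [← Real.rpow_mul (by positivity), mul_one_div, div_self hκ0.ne', Real.rpow_one]
        _ ≤ _ := Real.rpow_le_rpow (by positivity) hB (by positivity)
    calc (B.card : ℝ) ^ L ≤ ((N : ℝ) ^ (1 / κ)) ^ L := pow_le_pow_left₀ (by positivity) h6 _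
      _ = ((N : ℝ) ^ L) ^ (1 / κ) := by
          rw [← Real.rpow_natCast, ← Real.rpow_mul (by positivity), mul_comm (1 / κ),
            Real.rpow_mul (by positivity), Real.rpow_natCast]
      _ ≤ (p : ℝ) ^ (1 / κ) := by
          apply Real.rpow_le_rpow (by positivity) _ (by positivity)
          exact_mod_cast hp1.le
  have hpη : ρ ^ L ≤ (p : ℝ) ^ η := by
    calc ρ ^ L = ((2 : ℝ) ^ L) ^ η := by
          rw [hρ, ← Real.rpow_natCast, ← Real.rpow_mul (by norm_num), mul_comm η,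
            Real.rpow_mul (by norm_num), Real.rpow_natCast]
      _ ≤ (p : ℝ) ^ η := by
          apply Real.rpow_le_rpow (by positivity) _ hη0.le
          exact_mod_cast h2L.trans hp1.le
  have hL1R : (1 : ℝ) ≤ L := by exact_mod_cast hL2
  have hcount : (B'.card : ℝ) ≤ S.card * (2 * (1 + L) * ((2 + M) * (1 + L))) * (B.card : ℝ) ^ L := by
    have : B'.card ≤ S.card * (2 * (1 + L) * ((2 + M) * (1 + L))) * B.card ^ L :=
      hB'.trans (by gcongr)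
    exact_mod_cast this
  calc C * B'.card ≤ |C| * B'.card := by
        apply mul_le_mul_of_nonneg_right (le_abs_self _) (by positivity)
    _ ≤ |C| * (S.card * (2 * (1 + L) * ((2 + M) * (1 + L))) * (B.card : ℝ) ^ L) := by gcongr
    _ = |C| * S.card * 2 * (2 + M) * (1 + L) ^ 2 * (B.card : ℝ) ^ L := by ring
    _ ≤ |C| * S.card * 2 * (2 + M) * (4 * L ^ 2) * (B.card : ℝ) ^ L := by
        gcongr
        nlinarith
    _ = c * (L : ℝ) ^ 2 * (B.card : ℝ) ^ L := by rw [hc]; ring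
    _ ≤ ρ ^ L * (p : ℝ) ^ (1 / κ) := by gcongr
    _ ≤ (p : ℝ) ^ η * (p : ℝ) ^ (1 / κ) := by gcongr
    _ = (p : ℝ) ^ (1 / κ') := by
        rw [← Real.rpow_add hp0]
        congr 1
        rw [hη]
        ring

/-- numbers with digits in `E` -/
def Frac (p : ℕ) (E : Finset ℤ) : Set ℝ :=
  {x | ∃ β : ℕ → ℤ, (∀ i, β i ∈ E) ∧ x = ∑' i, (β i : ℝ) * ((p : ℝ) ^ (i + 1))⁻¹}

lemma summable_w {p : ℕ} (hp : 2 ≤ p) : Summable fun i : ℕ => ((p : ℝ) ^ (i + 1))⁻¹ := by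
  have hpR : (2 : ℝ) ≤ p := by exact_mod_cast hp
  have h1 : (fun i : ℕ => ((p : ℝ) ^ (i + 1))⁻¹) = fun i : ℕ => (p : ℝ)⁻¹ * ((p : ℝ)⁻¹) ^ i := by
    ext i
    rw [pow_succ, mul_inv, inv_pow, mul_comm]
  rw [h1]
  apply Summable.mul_left
  apply summable_geometric_of_lt_one (by positivity)
  exact inv_lt_one_of_one_lt₀ (by linarith)

lemma tsum_w_le {p : ℕ} (hp : 2 ≤ p) : ∑' i : ℕ, ((p : ℝ) ^ (i + 1))⁻¹ ≤ 1 := by
  have hpR : (2 : ℝ) ≤ p := by exact_mod_cast hp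
  have h1 : (fun i : ℕ => ((p : ℝ) ^ (i + 1))⁻¹) = fun i : ℕ => (p : ℝ)⁻¹ * ((p : ℝ)⁻¹) ^ i := by
    ext i
    rw [pow_succ, mul_inv, inv_pow, mul_comm]
  rw [h1, tsum_mul_left, tsum_geometric_of_lt_one (by positivity)
    (inv_lt_one_of_one_lt₀ (by linarith))]
  have h2 : (p : ℝ)⁻¹ ≤ 1 / 2 := by
    rw [inv_eq_one_div]
    exact one_div_le_one_div_of_le (by norm_num) hpR
  have h3 : (0 : ℝ) < 1 - (p : ℝ)⁻¹ := by linarith
  rw [← div_eq_mul_inv, div_le_one h3]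
  linarith

lemma summable_digits {p : ℕ} (hp : 2 ≤ p) {H : ℝ} {β : ℕ → ℤ} (hβ : ∀ i, |(β i : ℝ)| ≤ H) :
    Summable fun i : ℕ => (β i : ℝ) * ((p : ℝ) ^ (i + 1))⁻¹ := by
  apply Summable.of_norm_bounded ((summable_w hp).mul_left H)
  intro i
  rw [norm_mul, Real.norm_eq_abs, Real.norm_eq_abs, abs_of_nonneg (a := ((p : ℝ) ^ (i + 1))⁻¹)
    (by positivity)]
  exact mul_le_mul_of_nonneg_right (hβ i) (by positivity)

/-- covering of the set -/
lemma frac_cover {p : ℕ} (hp : 2 ≤ p) {E : Finset ℤ} {H : ℝ} (hE : ∀ e ∈ E, |(e : ℝ)| ≤ H)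
    (m : ℕ) : ∃ Q : Finset ℝ, Q.card ≤ E.card ^ m ∧
      ∀ x ∈ Frac p E, ∃ y ∈ Q, |x - y| ≤ H / (p : ℝ) ^ m := by
  classical
  have hpR : (2 : ℝ) ≤ p := by exact_mod_cast hp
  refine ⟨(Fintype.piFinset fun _ : Fin m => E).image
    fun f => ∑ i : Fin m, (f i : ℝ) * ((p : ℝ) ^ ((i : ℕ) + 1))⁻¹, ?_, ?_⟩
  · exact card_image_le.trans (by simp)
  · rintro x ⟨β, hβ, rfl⟩
    refine ⟨∑ i : Fin m, (β i : ℝ) * ((p : ℝ) ^ ((i : ℕ) + 1))⁻¹, ?_, ?_⟩
    · refine mem_image.2 ⟨fun i => β i, ?_, rfl⟩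
      rw [Fintype.mem_piFinset]
      exact fun i => hβ i
    · have hs := summable_digits hp (β := β) (fun i => hE _ (hβ i))
      have hs2 := summable_digits hp (β := fun i => β (i + m)) (fun i => hE _ (hβ _))
      rw [← hs.sum_add_tsum_nat_add m, Finset.sum_range
        (fun i : ℕ => (β i : ℝ) * ((p : ℝ) ^ (i + 1))⁻¹), add_sub_cancel_left]
      have e : ∀ i : ℕ, (β (i + m) : ℝ) * ((p : ℝ) ^ (i + m + 1))⁻¹ =
          ((p : ℝ) ^ m)⁻¹ * ((β (i + m) : ℝ) * ((p : ℝ) ^ (i + 1))⁻¹) := by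
        intro i
        rw [show i + m + 1 = m + (i + 1) by ring, pow_add, mul_inv]
        ring
      simp_rw [e]
      rw [tsum_mul_left, abs_mul, abs_of_nonneg (a := ((p : ℝ) ^ m)⁻¹) (by positivity),
        mul_comm, div_eq_mul_inv]
      apply mul_le_mul_of_nonneg_right _ (by positivity)
      have hH0 : 0 ≤ H := (abs_nonneg _).trans (hE _ (hβ 0))
      calc |∑' i : ℕ, (β (i + m) : ℝ) * ((p : ℝ) ^ (i + 1))⁻¹|
          ≤ ∑' i : ℕ, |(β (i + m) : ℝ) * ((p : ℝ) ^ (i + 1))⁻¹| := by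
            have := norm_tsum_le_tsum_norm hs2.norm
            simpa [Real.norm_eq_abs] using this
        _ ≤ ∑' i : ℕ, H * ((p : ℝ) ^ (i + 1))⁻¹ := by
            apply Summable.tsum_le_tsum _ hs2.abs ((summable_w hp).mul_left H)
            intro i
            rw [abs_mul, abs_of_nonneg (a := ((p : ℝ) ^ (i + 1))⁻¹) (by positivity)]
            exact mul_le_mul_of_nonneg_right (hE _ (hβ _)) (by positivity)
        _ = H * ∑' i : ℕ, ((p : ℝ) ^ (i + 1))⁻¹ := tsum_mul_left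
        _ ≤ H * 1 := by gcongr; exact tsum_w_le hp
        _ = H := mul_one _

/-- patterns in the set -/
lemma frac_pat {p : ℕ} (hp : 2 ≤ p) {E S : Finset ℤ} (α : Fin p → ℤ)
    (h : ∀ ρ : Fin p, ∀ s ∈ S, α ρ + s * ((ρ : ℕ) : ℤ) ∈ E) {r : ℝ} (hr : r ∈ Set.Icc (0 : ℝ) 1) :
    ∃ x : ℝ, ∀ s ∈ S, x + s * r ∈ Frac p E := by
  classical
  obtain ⟨f, -, hf⟩ := Real.ofDigits_SurjOn (b := p) (by omega) hr
  have hα : ∀ i, |((α (f i) : ℤ) : ℝ)| ≤ ∑ ρ : Fin p, |((α ρ : ℤ) : ℝ)| := fun i =>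
    single_le_sum (f := fun ρ : Fin p => |((α ρ : ℤ) : ℝ)|) (fun _ _ => abs_nonneg _)
      (mem_univ (f i))
  have hs1 := summable_digits hp (β := fun i => α (f i)) hα
  have hs2 : Summable (Real.ofDigitsTerm f) := Real.summable_ofDigitsTerm
  refine ⟨∑' i, (α (f i) : ℝ) * ((p : ℝ) ^ (i + 1))⁻¹, fun s hs => ?_⟩
  refine ⟨fun i => α (f i) + s * ((f i : ℕ) : ℤ), fun i => h (f i) s hs, ?_⟩
  rw [← hf, Real.ofDigits, ← tsum_mul_left, ← hs1.tsum_add (hs2.mul_left _)]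
  congr 1
  ext i
  simp only [Real.ofDigitsTerm]
  push_cast
  ring

/-- from residues to digits -/
lemma lift {p : ℕ} (hp : 0 < p) {S : Finset ℤ} {B' : Finset (ZMod p)} {K : ℕ}
    (hK : ∀ s ∈ S, |s| ≤ K)
    (h : ∀ r : ZMod p, ∃ a : ZMod p, ∀ s ∈ S, a + (s : ZMod p) * r ∈ B') :
    ∃ E : Finset ℤ, E.card ≤ B'.card * (2 * K + 5) ∧ ∃ α : Fin p → ℤ,
      ∀ ρ : Fin p, ∀ s ∈ S, α ρ + s * ((ρ : ℕ) : ℤ) ∈ E := by
  classical
  haveI : NeZero p := ⟨hp.ne'⟩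
  choose a ha using h
  refine ⟨(B' ×ˢ Finset.Icc (-(K + 2 : ℤ)) (K + 2)).image
    fun q => (q.1.val : ℤ) + p * q.2, ?_, fun ρ => ((a ((ρ : ℕ) : ZMod p)).val : ℤ), ?_⟩
  · refine card_image_le.trans ?_
    rw [card_product]
    have : (Finset.Icc (-(K + 2 : ℤ)) (K + 2)).card = 2 * K + 5 := by
      rw [Int.card_Icc]
      omega
    rw [this]
  · intro ρ s hs
    set A := a ((ρ : ℕ) : ZMod p) with hA
    set b : ℤ := (A.val : ℤ) + s * ((ρ : ℕ) : ℤ) with hb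
    have hpZ : (0 : ℤ) < p := by exact_mod_cast hp
    refine mem_image.2 ⟨((b : ZMod p), b / p), ?_, ?_⟩
    · rw [mem_product]
      constructor
      · have e : ((b : ℤ) : ZMod p) = A + (s : ZMod p) * ((ρ : ℕ) : ZMod p) := by
          rw [hb]
          push_cast
          rw [ZMod.natCast_zmod_val]
        simp only
        rw [e]
        exact ha _ s hs
      · simp only [Finset.mem_Icc]
        have h1 : (A.val : ℤ) < p := by exact_mod_cast ZMod.val_lt A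
        have h2 : (0 : ℤ) ≤ (A.val : ℤ) := by positivity
        have h3 : (((ρ : ℕ) : ℤ)) < p := by exact_mod_cast ρ.2
        have h4 : (0 : ℤ) ≤ ((ρ : ℕ) : ℤ) := by positivity
        have h5 := hK s hs
        rw [abs_le] at h5
        have h6 : s * ((ρ : ℕ) : ℤ) ≤ K * p := by nlinarith
        have h7 : -(K * p : ℤ) ≤ s * ((ρ : ℕ) : ℤ) := by nlinarith
        constructor
        · rw [Int.le_ediv_iff_mul_le hpZ]
          nlinarith
        · have : b / p < K + 2 := by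
            rw [Int.ediv_lt_iff_lt_mul hpZ]
            nlinarith
          exact this.le
    · simp only
      rw [ZMod.val_intCast]
      have := Int.emod_add_mul_ediv b p
      linarith

/-- the one-dimensional sets -/
theorem fractal1 {S B D : Finset ℤ} {a : ℤ → ℤ} (h : ∀ d ∈ D, ∀ s ∈ S, a d + s * d ∈ B)
    (hD : 2 ≤ D.card) (κ κ' : ℝ) (hκ' : 0 < κ') (hκ : κ' < κ) (hB : (B.card : ℝ) ^ κ ≤ D.card) :
    ∃ F : Set ℝ, (∀ r ∈ Set.Icc (0 : ℝ) 1, ∃ x : ℝ, ∀ s ∈ S, x + s * r ∈ F) ∧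
      ∃ C : ℝ, 0 < C ∧ ∀ δ : ℝ, 0 < δ → δ ≤ 1 → ∃ Q : Finset ℝ,
        (Q.card : ℝ) ≤ C * δ ^ (-(1 / κ')) ∧ ∀ x ∈ F, ∃ y ∈ Q, |x - y| < δ := by
  classical
  obtain ⟨K, hK⟩ : ∃ K : ℕ, ∀ s ∈ S, |s| ≤ K :=
    ⟨∑ d ∈ S, d.natAbs, fun d hd => by
      have : d.natAbs ≤ ∑ d ∈ S, d.natAbs :=
        single_le_sum (f := fun d : ℤ => d.natAbs) (fun _ _ => Nat.zero_le _) hd
      rw [Int.abs_eq_natAbs]
      exact_mod_cast this⟩
  obtain ⟨p, hp, B', hB', hpat⟩ := mod_p_small h hD κ κ' hκ' hκ hB (2 * K + 5)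
  obtain ⟨E, hE, α, hα⟩ := lift hp.pos hK hpat
  have hpR : (2 : ℝ) ≤ p := by exact_mod_cast hp.two_le
  have hp0 : (0 : ℝ) < p := by linarith
  have hE2 : (E.card : ℝ) ≤ (p : ℝ) ^ (1 / κ') := by
    calc (E.card : ℝ) ≤ ((B'.card * (2 * K + 5) : ℕ) : ℝ) := by exact_mod_cast hE
      _ = (2 * K + 5) * B'.card := by push_cast; ring
      _ ≤ _ := hB'
  obtain ⟨H, hH0, hH⟩ : ∃ H : ℝ, 0 ≤ H ∧ ∀ e ∈ E, |(e : ℝ)| ≤ H :=
    ⟨∑ e ∈ E, |(e : ℝ)|, sum_nonneg fun _ _ => abs_nonneg _, fun e he =>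
      single_le_sum (f := fun e : ℤ => |(e : ℝ)|) (fun _ _ => abs_nonneg _) he⟩
  refine ⟨Frac p E, fun r hr => frac_pat hp.two_le α hα hr, ((p : ℝ) * (H + 1)) ^ (1 / κ'),
    by positivity, fun δ hδ hδ1 => ?_⟩
  have hex : ∃ m : ℕ, H + 1 < δ * (p : ℝ) ^ m := by
    obtain ⟨m, hm⟩ := pow_unbounded_of_one_lt ((H + 1) / δ) (show (1 : ℝ) < p by linarith)
    refine ⟨m, ?_⟩
    rw [div_lt_iff₀ hδ] at hm
    linarith
  obtain ⟨m, hm, hmin⟩ : ∃ m : ℕ, H + 1 < δ * (p : ℝ) ^ m ∧ ∀ k < m, ¬ H + 1 < δ * (p : ℝ) ^ k :=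
    ⟨Nat.find hex, Nat.find_spec hex, fun k hk => Nat.find_min hex hk⟩
  obtain ⟨Q, hQ, hcov⟩ := frac_cover hp.two_le hH m
  refine ⟨Q, ?_, fun x hx => ?_⟩
  · have hm1 : (p : ℝ) ^ m ≤ (p * (H + 1)) * δ⁻¹ := by
      rcases Nat.eq_zero_or_pos m with rfl | hm0
      · rw [pow_zero] at hm ⊢
        exfalso
        nlinarith
      · obtain ⟨k, rfl⟩ : ∃ k, m = k + 1 := ⟨m - 1, by omega⟩
        have h3 := hmin k (Nat.lt_succ_self k)
        push Not at h3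
        rw [pow_succ]
        have h4 : (p : ℝ) ^ k ≤ (H + 1) * δ⁻¹ := by
          rw [← div_eq_mul_inv, le_div_iff₀ hδ]
          linarith
        calc (p : ℝ) ^ k * p ≤ ((H + 1) * δ⁻¹) * p := by gcongr
          _ = _ := by ring
    calc (Q.card : ℝ) ≤ ((E.card ^ m : ℕ) : ℝ) := by exact_mod_cast hQ
      _ = (E.card : ℝ) ^ m := by push_cast; ring
      _ ≤ ((p : ℝ) ^ (1 / κ')) ^ m := by gcongr
      _ = ((p : ℝ) ^ m) ^ (1 / κ') := by
          rw [← Real.rpow_natCast, ← Real.rpow_mul (by positivity), mul_comm (1 / κ'),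
            Real.rpow_mul (by positivity), Real.rpow_natCast]
      _ ≤ ((p * (H + 1)) * δ⁻¹) ^ (1 / κ') := by
          apply Real.rpow_le_rpow (by positivity) hm1 (by positivity)
      _ = _ := by
          rw [Real.mul_rpow (by positivity) (by positivity), Real.inv_rpow hδ.le,
            ← Real.rpow_neg hδ.le]
  · obtain ⟨y, hy, hxy⟩ := hcov x hx
    refine ⟨y, hy, hxy.trans_lt ?_⟩
    rw [div_lt_iff₀ (by positivity)]
    linarith

end Pool.Agent.R470.AK
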