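import Pool.Agent.R470.AK.Pat2
import Pool.Agent.R470.AK.Lac3

/-! # Patterns in `ℝ^n` from slopes -/

set_option autoImplicit false

namespace Pool.Agent.R470.AK

open Finset

/-- the sets in `ℝ^n` -/
theorem fractal_n {S B D : Finset ℤ} {a : ℤ → ℤ} (h : ∀ d ∈ D, ∀ s ∈ S, a d + s * d ∈ B)
    (hD : 2 ≤ D.card) (κ κ' : ℝ) (hκ' : 0 < κ') (hκ : κ' < κ) (hB : (B.card : ℝ) ^ κ ≤ D.card)
    (n : ℕ) :
    ∃ F : Set (EuclideanSpace ℝ (Fin n)),
      (∀ r : EuclideanSpace ℝ (Fin n), (∀ i, r i ∈ Set.Icc (0 : ℝ) 1) →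
        ∃ x : EuclideanSpace ℝ (Fin n), ∀ s ∈ S, x + (s : ℝ) • r ∈ F) ∧
      ∃ C : ℝ, 0 < C ∧ ∀ δ : ℝ, 0 < δ → δ ≤ 1 → ∃ Q : Finset (EuclideanSpace ℝ (Fin n)),
        (Q.card : ℝ) ≤ C * δ ^ (-(n / κ')) ∧ F ⊆ ⋃ y ∈ Q, Metric.ball y δ := by
  classical
  obtain ⟨F₁, hpat, C, hC, hcov⟩ := fractal1 h hD κ κ' hκ' hκ hB
  refine ⟨{x | ∀ i, x i ∈ F₁}, fun r hr => ?_,
    (C * ((n : ℝ) + 1) ^ (1 / κ')) ^ n, by positivity, fun δ hδ hδ1 => ?_⟩
  · choose x hx using fun i => hpat (r i) (hr i)
    refine ⟨WithLp.toLp 2 x, fun s hs i => ?_⟩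
    have := hx i s hs
    simpa using this
  · have hn : (0 : ℝ) < (n : ℝ) + 1 := by positivity
    obtain ⟨Q, hQ, hQc⟩ := hcov (δ / (n + 1)) (by positivity)
      ((div_le_self hδ.le (by linarith [(Nat.cast_nonneg n : (0 : ℝ) ≤ n)])).trans hδ1)
    refine ⟨(Fintype.piFinset fun _ : Fin n => Q).image (WithLp.toLp 2), ?_, ?_⟩
    · calc (((Fintype.piFinset fun _ : Fin n => Q).image (WithLp.toLp 2)).card : ℝ)
          ≤ ((Fintype.piFinset fun _ : Fin n => Q).card : ℝ) := by
            exact_mod_cast card_image_le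
        _ = (Q.card : ℝ) ^ n := by simp
        _ ≤ (C * (δ / (n + 1)) ^ (-(1 / κ'))) ^ n := by gcongr
        _ = (C * ((n : ℝ) + 1) ^ (1 / κ')) ^ n * δ ^ (-(n / κ')) := by
            rw [Real.div_rpow hδ.le hn.le, Real.rpow_neg hn.le, div_inv_eq_mul]
            have e : (δ ^ (-(1 / κ'))) ^ n = δ ^ (-(n / κ')) := by
              rw [← Real.rpow_natCast, ← Real.rpow_mul hδ.le]
              congr 1
              ring
            calc (C * (δ ^ (-(1 / κ')) * (n + 1 : ℝ) ^ (1 / κ'))) ^ n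
                = (C * ((n : ℝ) + 1) ^ (1 / κ')) ^ n * (δ ^ (-(1 / κ'))) ^ n := by
                  rw [← mul_pow]
                  ring
              _ = _ := by rw [e]
    · intro x hx
      choose y hy hxy using fun i => hQc (x i) (hx i)
      simp only [Set.mem_iUnion]
      refine ⟨WithLp.toLp 2 y, mem_image_of_mem _ (Fintype.mem_piFinset.2 hy), ?_⟩
      rw [Metric.mem_ball, EuclideanSpace.dist_eq]
      have h1 : ∑ i, dist (x i) ((WithLp.toLp 2 y : EuclideanSpace ℝ (Fin n)) i) ^ 2 ≤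
          ∑ _i : Fin n, (δ / (n + 1)) ^ 2 := by
        apply sum_le_sum
        intro i _
        apply pow_le_pow_left₀ dist_nonneg
        rw [Real.dist_eq]
        exact (hxy i).le
      rw [sum_const, card_univ, Fintype.card_fin, nsmul_eq_mul] at h1
      rw [Real.sqrt_lt' hδ]
      refine h1.trans_lt ?_
      rw [div_pow, ← mul_div_assoc, div_lt_iff₀ (by positivity)]
      have hδ2 : 0 < δ ^ 2 := by positivity
      have hn0 : (0 : ℝ) ≤ n := Nat.cast_nonneg n
      have h3 : (n : ℝ) < ((n : ℝ) + 1) ^ 2 := by nlinarith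
      have h4 := mul_lt_mul_of_pos_right h3 hδ2
      linarith

/-- patterns from slopes -/
theorem pattern_of_slopes {S : Finset ℚ} (h0 : (-1 : ℚ) ∉ S) (κ κ' : ℝ) (hκ' : 0 < κ')
    (hκ : κ' < κ)
    (h : ∀ C : ℝ, ∃ A : Finset (ℤ × ℤ), C * (big S A : ℝ) ^ κ <
      ((A.image fun p : ℤ × ℤ => ((p.1 : ℚ) + (-1) * (p.2 : ℚ))).card : ℝ)) (n : ℕ) :
    ∃ F : Set (EuclideanSpace ℝ (Fin n)),
      (∀ r : EuclideanSpace ℝ (Fin n), (∀ i, r i ∈ Set.Icc (0 : ℝ) 1) →
        ∃ x ∈ F, ∀ q ∈ S, x + ((1 / (q + 1) : ℚ) : ℝ) • r ∈ F) ∧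
      ∃ C : ℝ, 0 < C ∧ ∀ δ : ℝ, 0 < δ → δ ≤ 1 → ∃ Q : Finset (EuclideanSpace ℝ (Fin n)),
        (Q.card : ℝ) ≤ C * δ ^ (-(n / κ')) ∧ F ⊆ ⋃ y ∈ Q, Metric.ball y δ := by
  classical
  have hκ0 : 0 < κ := hκ'.trans hκ
  -- common denominator
  obtain ⟨m, hm, hden⟩ : ∃ m : ℕ, 0 < m ∧ ∀ q ∈ S, ∃ s : ℤ, (s : ℚ) = m * (1 / (q + 1)) := by
    refine ⟨∏ q ∈ S, (1 / (q + 1)).den, prod_pos fun q _ => Rat.den_pos _, fun q hq => ?_⟩
    obtain ⟨c, hc⟩ := dvd_prod_of_mem (fun q : ℚ => (1 / (q + 1)).den) hq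
    refine ⟨(1 / (q + 1)).num * c, ?_⟩
    rw [hc]
    have := Rat.num_div_den (1 / (q + 1))
    have hd : ((1 / (q + 1)).den : ℚ) ≠ 0 := by
      exact_mod_cast (1 / (q + 1)).den_nz
    push_cast
    rw [div_eq_iff hd] at this
    rw [this]
    ring
  choose! s hs using hden
  obtain ⟨A, hA⟩ := h (((S.card : ℝ) + 1) ^ κ + 2)
  -- the data
  set D : Finset ℤ := A.image fun p => p.1 - p.2 with hDdef
  have hDc : D.card = (A.image fun p : ℤ × ℤ => ((p.1 : ℚ) + (-1) * (p.2 : ℚ))).card := by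
    have : (A.image fun p : ℤ × ℤ => ((p.1 : ℚ) + (-1) * (p.2 : ℚ))) =
        D.image fun z : ℤ => (z : ℚ) := by
      rw [hDdef, image_image]
      apply image_congr
      intro p _
      simp only [Function.comp]
      push_cast
      ring
    rw [this, card_image_of_injective _ Int.cast_injective]
  rw [← hDc] at hA
  have hbig0 : 0 ≤ (big S A : ℝ) ^ κ := by positivity
  have hDpos : (0 : ℝ) < D.card := by
    refine lt_of_le_of_lt ?_ hA
    positivity
  have hDpos' : 0 < D.card := by exact_mod_cast hDpos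
  have hAne : A.Nonempty := by
    obtain ⟨d, hd⟩ := card_pos.1 hDpos'
    obtain ⟨p, hp, -⟩ := mem_image.1 hd
    exact ⟨p, hp⟩
  have hbig1 : 1 ≤ big S A := big_pos hAne
  have hbig1R : (1 : ℝ) ≤ (big S A : ℝ) ^ κ := by
    apply Real.one_le_rpow _ hκ0.le
    exact_mod_cast hbig1
  have hD2 : 2 ≤ D.card := by
    have h1 : (2 : ℝ) ≤ D.card := by
      have h2 : (0 : ℝ) ≤ ((S.card : ℝ) + 1) ^ κ := by positivity
      nlinarith
    exact_mod_cast h1
  -- representatives
  have hrep : ∀ d ∈ D, ∃ p ∈ A, p.1 - p.2 = d := fun d hd => mem_image.1 hd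
  choose! g hg1 hg2 using hrep
  set S' : Finset ℤ := insert 0 (S.image s) with hS'
  set B : Finset ℤ := (insert none (S.image some)).biUnion fun o : Option ℚ =>
    match o with
    | none => A.image fun p : ℤ × ℤ => (m : ℤ) * p.2
    | some q => A.image fun p : ℤ × ℤ => (m : ℤ) * p.2 + s q * (p.1 - p.2) with hBdef
  have hpat : ∀ d ∈ D, ∀ t ∈ S', (m : ℤ) * (g d).2 + t * d ∈ B := by
    intro d hd t ht
    rw [hBdef, mem_biUnion]
    rw [hS', mem_insert, mem_image] at ht
    rcases ht with rfl | ⟨q, hq, rfl⟩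
    · refine ⟨none, mem_insert_self _ _, ?_⟩
      simp only
      exact mem_image.2 ⟨g d, hg1 d hd, by ring⟩
    · refine ⟨some q, mem_insert_of_mem (mem_image_of_mem _ hq), ?_⟩
      simp only
      exact mem_image.2 ⟨g d, hg1 d hd, by rw [hg2 d hd]⟩
  have hBc : B.card ≤ (S.card + 1) * big S A := by
    rw [hBdef]
    refine card_biUnion_le.trans ?_
    have h1 : ∀ o ∈ insert none (S.image some), (match o with
        | none => A.image fun p : ℤ × ℤ => (m : ℤ) * p.2
        | some q => A.image fun p : ℤ × ℤ => (m : ℤ) * p.2 + s q * (p.1 - p.2)).card ≤ big S A := by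
      intro o ho
      rcases o with _ | q
      · simp only
        have h2 : (A.image fun p : ℤ × ℤ => (m : ℤ) * p.2).card ≤
            (A.image fun p : ℤ × ℤ => (p.2 : ℚ)).card := by
          have e : (A.image fun p : ℤ × ℤ => ((m : ℤ) * p.2)) =
              (A.image fun p : ℤ × ℤ => p.2).image fun z => (m : ℤ) * z := by
            rw [image_image]
            rfl
          have e2 : (A.image fun p : ℤ × ℤ => (p.2 : ℚ)) =
              (A.image fun p : ℤ × ℤ => p.2).image fun z : ℤ => (z : ℚ) := by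
            rw [image_image]
            rfl
          rw [e, e2, card_image_of_injective _ Int.cast_injective]
          exact card_image_le
        exact h2.trans (le_max_left _ _)
      · simp only
        rw [mem_insert, mem_image] at ho
        have hq : q ∈ S := by
          rcases ho with ho | ⟨q', hq', h'⟩
          · cases ho
          · rw [← Option.some.inj h']
            exact hq'
        have hq1 : q + 1 ≠ 0 := by
          intro h'
          apply h0
          have : q = -1 := by linarith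
          rw [← this]
          exact hq
        have h2 : (A.image fun p : ℤ × ℤ => (m : ℤ) * p.2 + s q * (p.1 - p.2)).card ≤
            (A.image fun p : ℤ × ℤ => (p.1 : ℚ) + q * (p.2 : ℚ)).card := by
          have e : ((A.image fun p : ℤ × ℤ => (m : ℤ) * p.2 + s q * (p.1 - p.2)).image
              fun z : ℤ => (z : ℚ)) = (A.image fun p : ℤ × ℤ => (p.1 : ℚ) + q * (p.2 : ℚ)).image
              fun z => ((m : ℚ) / (q + 1)) * z := by
            rw [image_image, image_image]
            apply image_congr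
            intro p _
            simp only [Function.comp]
            push_cast
            rw [hs q hq]
            field_simp
            ring
          calc _ = ((A.image fun p : ℤ × ℤ => (m : ℤ) * p.2 + s q * (p.1 - p.2)).image
              fun z : ℤ => (z : ℚ)).card := (card_image_of_injective _ Int.cast_injective).symm
            _ ≤ _ := by
              rw [e]
              exact card_image_le
        refine h2.trans ?_
        exact (le_sup (f := fun r : ℚ => (A.image fun p : ℤ × ℤ => (p.1 : ℚ) + r * (p.2 : ℚ)).card)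
          hq).trans (le_max_right _ _)
    refine (sum_le_sum h1).trans ?_
    rw [sum_const, smul_eq_mul]
    apply Nat.mul_le_mul_right
    refine (card_insert_le _ _).trans ?_
    have := card_image_le (s := S) (f := (some : ℚ → Option ℚ))
    omega
  have hBκ : (B.card : ℝ) ^ κ ≤ D.card := by
    calc (B.card : ℝ) ^ κ ≤ (((S.card : ℝ) + 1) * big S A) ^ κ := by
          apply Real.rpow_le_rpow (by positivity) _ hκ0.le
          exact_mod_cast hBc
      _ = ((S.card : ℝ) + 1) ^ κ * (big S A : ℝ) ^ κ :=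
          Real.mul_rpow (by positivity) (by positivity)
      _ ≤ (((S.card : ℝ) + 1) ^ κ + 2) * (big S A : ℝ) ^ κ := by
          apply mul_le_mul_of_nonneg_right _ hbig0
          linarith
      _ ≤ D.card := hA.le
  obtain ⟨F, hF, hcov⟩ := fractal_n (a := fun d => (m : ℤ) * (g d).2) hpat hD2 κ κ' hκ' hκ hBκ n
  refine ⟨F, fun r hr => ?_, hcov⟩
  have hmR : (1 : ℝ) ≤ m := by exact_mod_cast hm
  obtain ⟨x, hx⟩ := hF ((1 / (m : ℝ)) • r) (by
    intro i
    have := hr i
    simp only [PiLp.smul_apply, smul_eq_mul]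
    constructor
    · exact mul_nonneg (by positivity) this.1
    · calc 1 / (m : ℝ) * r i ≤ 1 * 1 := by
            apply mul_le_mul _ this.2 this.1 (by norm_num)
            rw [div_le_one (by linarith)]
            exact hmR
        _ = 1 := by norm_num)
  refine ⟨x, ?_, fun q hq => ?_⟩
  · have := hx 0 (by rw [hS']; exact mem_insert_self _ _)
    simpa using this
  · have := hx (s q) (by rw [hS']; exact mem_insert_of_mem (mem_image_of_mem _ hq))
    rw [smul_smul] at this
    have e : ((s q : ℤ) : ℝ) * (1 / (m : ℝ)) = ((1 / (q + 1) : ℚ) : ℝ) := by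
      have h2 : ((s q : ℚ) : ℝ) = (m : ℝ) * ((1 / (q + 1) : ℚ) : ℝ) := by
        rw [hs q hq]
        push_cast
        ring
      have h3 : ((s q : ℤ) : ℝ) = ((s q : ℚ) : ℝ) := by push_cast; rfl
      rw [h3, h2]
      field_simp
    rw [e] at this
    exact this

end Pool.Agent.R470.AK
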